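import Pool.Agent.Lib.P1346Z.Viol
import Pool.Agent.Lib.P1346K.Ram

/-!
# The corner relation contains no large complete bipartite graph
-/

set_option autoImplicit false

namespace P1346e8

namespace Z

open Q

open P1346e8.K (Nest Sp Nx last_uniq first_uniq nx_inj nx_uniq Rr rr_irrefl edge_card ramsey)

variable {V : Type} {e f H : V → V → Prop} {N K Y P F F1 F2 : V → Prop} {m n i j k J t L : ℕ}
  {x y u v w z c d : V} {W R : ℕ → V → V → Prop} {T : V → V → V → Prop} {ν : V → ℕ}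

/-- Corners in one set. -/
theorem kind1 [Finite V] (h : Cmp e f) (hT : Tr t e f W) (hp : Pr t m J L)
    (hTe : T = Tz e f m J L) {a0 : V}
    (hk : ∀ x y, Wz T i a0 x → Wz T i a0 y → ¬ Wz T (i + 1) x y → ∀ k, Sp W k x y →
      Ab t e f (W k x))
    {A B : Finset V} (hA : ∀ a ∈ A, Wz T i a0 a) (hB : ∀ b ∈ B, Wz T i a0 b)
    (hAA : ∀ a ∈ A, ∀ a' ∈ A, a ≠ a' → ¬ Wz T (i + 1) a a')
    (hBB : ∀ b ∈ B, ∀ b' ∈ B, b ≠ b' → ¬ Wz T (i + 1) b b')
    (hAB : ∀ a ∈ A, ∀ b ∈ B, e a b ∧ ¬ Wz T (i + 1) a b) (hAt : t + 1 ≤ A.card)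
    (hBt : t + 1 ≤ B.card) : False := by
  classical
  have hN := hT.nest
  have hF : Fam3 T := by
    rw [hTe]
    exact tz_fam h hT hp
  have hR : Nest (Wz T) := wz_nest hF
  have hAne : A.Nonempty := by
    rw [← Finset.card_pos]
    omega
  have hBne : B.Nonempty := by
    rw [← Finset.card_pos]
    omega
  have hsep : ∀ a b, ∃ k, a ∈ A → b ∈ B → Sp W k a b := by
    intro a b
    by_cases hab : a ∈ A ∧ b ∈ B
    · have hne : a ≠ b := by
        intro g
        refine (hAB a hab.1 b hab.2).2 ?_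
        rw [g]
        exact hR.self _ _
      obtain ⟨k, hk⟩ : ∃ k, Sp W k a b := hN.ex a b hne
      exact ⟨k, fun _ _ => hk⟩
    · exact ⟨0, fun g1 g2 => absurd ⟨g1, g2⟩ hab⟩
  choose lv hlv using hsep
  obtain ⟨⟨a1, b1⟩, hab1, hmin⟩ := Finset.exists_min_image (A ×ˢ B) (fun p => lv p.1 p.2)
    (hAne.product hBne)
  rw [Finset.mem_product] at hab1
  obtain ⟨ha1, hb1⟩ := hab1
  simp only at ha1 hb1 hmin
  have hmin' : ∀ a ∈ A, ∀ b ∈ B, lv a1 b1 ≤ lv a b := fun a ha b hb =>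
    hmin (a, b) (Finset.mem_product.2 ⟨ha, hb⟩)
  have hs1 := hlv a1 b1 ha1 hb1
  have hAb := hk a1 b1 (hA a1 ha1) (hB b1 hb1) (hAB a1 ha1 b1 hb1).2 _ hs1
  have hBP : ∀ b ∈ B, W (lv a1 b1) a1 b := fun b hb =>
    hN.mono (hmin' a1 ha1 b hb) (hlv a1 b ha1 hb).1
  have hAP : ∀ a ∈ A, W (lv a1 b1) a1 a := fun a ha =>
    hN.trans (hBP b1 hb1) (hN.symm (hN.mono (hmin' a ha b1 hb1) (hlv a b1 ha hb1).1))
  generalize hk1 : lv a1 b1 = k1 at *
  have hce : Conn e (W k1 a1) := by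
    by_contra hc
    refine hs1.2 ?_
    rw [hT.par k1 a1 hc]
    exact Cp.step (hN.self _ _) hs1.1 (hAB a1 ha1 b1 hb1).1
  obtain ⟨_, hcf, hlb⟩ := hAb.resolve_left (fun g => g hce)
  have hblk : ∀ z, W k1 a1 z → ∀ w, W (k1 + 1) z w ↔ W k1 a1 w ∧ SB e (W k1 a1) z w :=
    fun z hz w => pri_sb hT hce hcf hz
  have hall : ∀ v, v ∈ A ∪ B → Wz T i a0 v ∧ W k1 a1 v := by
    intro v hv
    rw [Finset.mem_union] at hv
    rcases hv with hv | hv
    · exact ⟨hA v hv, hAP v hv⟩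
    · exact ⟨hB v hv, hBP v hv⟩
  have hdis : ∀ z ∈ A ∪ B, ∀ z' ∈ A ∪ B, ¬ Wz T (i + 1) z z' → ¬ W (k1 + 1) z z' := by
    intro z hz z' hz' hzz hY
    have hne : z ≠ z' := by
      rintro rfl
      exact hzz (hR.self _ _)
    have hsp : Sp (Wz T) i z z' :=
      ⟨hR.trans (hR.symm (hall z hz).1) (hall z' hz').1, hzz⟩
    have hTm : ∀ v, Wz T i a0 v → T z z' v := fun v hv =>
      (wz_sp hF hsp v).2 (hR.trans (hR.symm (hall z hz).1) hv)
    obtain ⟨l, hl⟩ : ∃ l, Sp W l z z' := hN.ex z z' hne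
    have hS := se_of_ab h hT hp (hk z z' (hall z hz).1 (hall z' hz').1 hzz l hl) hl
    -- no edges from the block to the rest
    have hno : ∀ v ∈ A ∪ B, ∀ y0, W (k1 + 1) z y0 → e y0 v → W (k1 + 1) z v := by
      intro v hv y0 hy0 he
      by_contra hn
      have h1 := hTm v (hall v hv).1
      rw [hTe] at h1
      refine (form_iff.1 (h1.1 hS)).1 (ne_nn h (hT.mod (k1 + 1) z) (hN.self _ _) hY ⟨hn, ?_⟩)
      exact fun w hw => h.se _ _ (hT.mod (k1 + 1) z y0 w v hy0 hw hn he)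
    have hend : W (k1 + 1) z a1 ∧ W (k1 + 1) z b1 := by
      have hz' := hz
      rw [Finset.mem_union] at hz'
      rcases hz' with hzA | hzB
      · have h1 := hno b1 (Finset.mem_union_right _ hb1) z (hN.self _ _) (hAB z hzA b1 hb1).1
        exact ⟨hno a1 (Finset.mem_union_left _ ha1) b1 h1 (h.se _ _ (hAB a1 ha1 b1 hb1).1), h1⟩
      · have h1 := hno a1 (Finset.mem_union_left _ ha1) z (hN.self _ _)
          (h.se _ _ (hAB a1 ha1 z hzB).1)
        exact ⟨h1, hno b1 (Finset.mem_union_right _ hb1) a1 h1 (hAB a1 ha1 b1 hb1).1⟩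
    exact hs1.2 (hN.trans (hN.symm hend.1) hend.2)
  refine ktt_K hlb A B hAP hBP ?_ ?_ ?_ (by omega) (by omega)
  · intro a ha a' ha' haa g
    exact hdis a (Finset.mem_union_left _ ha) a' (Finset.mem_union_left _ ha')
      (hAA a ha a' ha' haa) ((hblk a (hAP a ha) a').2 ⟨hAP a' ha', g⟩)
  · intro b hb b' hb' hbb g
    exact hdis b (Finset.mem_union_right _ hb) b' (Finset.mem_union_right _ hb')
      (hBB b hb b' hb' hbb) ((hblk b (hBP b hb) b').2 ⟨hBP b' hb', g⟩)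
  · intro a ha b hb
    refine ⟨(hAB a ha b hb).1, fun g => ?_⟩
    exact hdis a (Finset.mem_union_left _ ha) b (Finset.mem_union_right _ hb)
      (hAB a ha b hb).2 ((hblk a (hAP a ha) b).2 ⟨hBP b hb, g⟩)

/-- The kinds of corners. -/
inductive Col where
  | k1 (σ τ σ' τ' : Bool)
  | k2
  | k3
  | v (ρ σ τ : Bool)
  | w (ρ σ τ : Bool)
  deriving DecidableEq, Fintype

/-- The violation at one row. -/
structure V1 (t : ℕ) (e f : V → V → Prop) (W : ℕ → V → V → Prop)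
    (T : V → V → V → Prop) (k : ℕ) (a a' p q z : V) : Prop where
  ce : Conn e (W k a)
  cf : Conn f (W k a)
  lb : Lb t e (W k a)
  cl : ∀ z w, T a a' z → W (k + 1) z w → T a a' w
  zk : W k a z
  zf : ¬ T a a' z
  ep : e p z
  eq : ¬ e q z

/-- The violation at one row for one of the two graphs. -/
def V2 (t : ℕ) (e f : V → V → Prop) (W : ℕ → V → V → Prop) (T : V → V → V → Prop) (ρ : Bool)
    (k : ℕ) (a a' p q z : V) : Prop := match ρ with
  | true => V1 t e f W T k a a' p q z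
  | false => V1 t f e W T k a a' p q z

/-- An element that distinguishes the elements of a row. -/
theorem dist_row [Finite V] (h : Cmp e f) (hT : Tr t e f W) (hp : Pr t m J L)
    (hTe : T = Tz e f m J L) {a a' z : V} {k : ℕ} (hs : Sp W k a a')
    (hd : ¬ (e a z ↔ e a' z)) : T a a' z ∨ ∃ ρ σ, V2 t e f W T ρ k a a' (sel σ a a') (sel σ a' a) z
    := by
  have hN := hT.nest
  have hne := hs.ne hN
  by_cases hTz : T a a' z
  · exact Or.inl hTz
  right
  have hF : Fam3 T := by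
    rw [hTe]
    exact tz_fam h hT hp
  have hza : a ≠ z := by
    rintro rfl
    exact hTz (hF.mem _ _ hne).1
  have hza' : a' ≠ z := by
    rintro rfl
    exact hTz (hF.mem _ _ hne).2
  have hzK : W k a z := by
    by_contra g
    exact hd ⟨fun g' => hT.mod k a a a' z (hN.self _ _) hs.1 g g',
      fun g' => hT.mod k a a' a z hs.1 (hN.self _ _) g g'⟩
  have hdf : ¬ (f a z ↔ f a' z) := by
    rw [h.symm.ef a z hza, h.symm.ef a' z hza', not_iff_not]
    exact hd
  have main : ∀ e f : V → V → Prop, Cmp e f → Tr t e f W → Gd e f m J L a a' →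
      T a a' = Te e m J a a' → ¬ (e a z ↔ e a' z) →
      ∃ σ, V1 t e f W T k a a' (sel σ a a') (sel σ a' a) z := by
    intro e f h hT hg hTT hd
    rcases te_form h hT hp.m2 (by have := hp.mt; omega) hs hg with g | ⟨g1, g2, g3, g4, g5, g6, g7⟩
    · exfalso
      apply hTz
      rw [hTT, g]
      exact form_in h (hT.mod k a) hzK m
    · rw [← hTT] at g5 g6
      by_cases he : e a z
      · exact ⟨true, g1, g2, g3, g6, hzK, hTz, he, fun g => hd ⟨fun _ => g, fun _ => he⟩⟩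
      · refine ⟨false, g1, g2, g3, g6, hzK, hTz, ?_, he⟩
        by_contra g
        exact hd ⟨fun g' => absurd g' he, fun g' => absurd g' g⟩
  rcases tz_eq h hT hp hne with ⟨g, g'⟩ | ⟨g, g'⟩
  · rw [← hTe] at g'
    obtain ⟨σ, hσ⟩ := main e f h hT g.1 g' hd
    exact ⟨true, σ, hσ⟩
  · rw [← hTe] at g'
    obtain ⟨σ, hσ⟩ := main f e h.symm (hT.symm h) g.1 g' hdf
    exact ⟨false, σ, hσ⟩

end Z

end P1346e8
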