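import Pool.Agent.Lib.P1346Z.CornZ

/-!
# The corner relation contains no large complete bipartite graph: conclusion
-/

set_option autoImplicit false

namespace P1346e8

namespace Z

open Q

open P1346e8.K (Nest Sp Nx last_uniq first_uniq nx_inj nx_uniq Rr rr_irrefl edge_card ramsey)

variable {V : Type} {e f H : V → V → Prop} {N K Y P F F1 F2 : V → Prop} {m n i j k J t L : ℕ}
  {x y u v w z c d : V} {W R : ℕ → V → V → Prop} {T : V → V → V → Prop} {ν : V → ℕ}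

/-- The property of a corner of a given kind. -/
def CP (t : ℕ) (H f : V → V → Prop) (W : ℕ → V → V → Prop) (T : V → V → V → Prop) (nx : V → V)
    (lv κ : V → ℕ) (c : Col) (a b : V) : Prop := match c with
  | .k1 σ τ σ' τ' => lv a = lv b ∧ Wz T (lv a) a b ∧
      H (sel σ a (nx a)) (sel τ b (nx b)) ∧ ¬ H (sel σ' a (nx a)) (sel τ' b (nx b))
  | .k2 => (Wz T (lv b) b a ∧ ¬ Wz T (lv b) b (nx a)) ∨
      (¬ Wz T (lv b) b a ∧ Wz T (lv b) b (nx a))
  | .k3 => (Wz T (lv a) a b ∧ ¬ Wz T (lv a) a (nx b)) ∨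
      (¬ Wz T (lv a) a b ∧ Wz T (lv a) a (nx b))
  | .v ρ σ τ => V2 t H f W T ρ (κ a) a (nx a) (sel σ a (nx a)) (sel σ (nx a) a)
      (sel τ b (nx b))
  | .w ρ σ τ => V2 t H f W T ρ (κ b) b (nx b) (sel σ b (nx b)) (sel σ (nx b) b)
      (sel τ a (nx a))

/-- Every corner has a kind. -/
theorem col_ex [Finite V] (h : Cmp H f) (hT : Tr t H f W) (hp : Pr t m J L)
    (hTe : T = Tz H f m J L) {nx : V → V} {lv κ : V → ℕ} {a b : V}
    (ha : Sp (Wz T) (lv a) a (nx a)) (hb : Sp (Wz T) (lv b) b (nx b))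
    (ha' : Sp W (κ a) a (nx a)) (hb' : Sp W (κ b) b (nx b))
    (h1 : ¬ ((H a b ↔ H (nx a) b) ∧ (H a (nx b) ↔ H (nx a) (nx b))))
    (h2 : ¬ ((H a b ↔ H a (nx b)) ∧ (H (nx a) b ↔ H (nx a) (nx b)))) :
    ∃ c, CP t H f W T nx lv κ c a b := by
  have hF : Fam3 T := by
    rw [hTe]
    exact tz_fam h hT hp
  have hR : Nest (Wz T) := wz_nest hF
  have r1 : ∃ τ, ¬ (H a (sel τ b (nx b)) ↔ H (nx a) (sel τ b (nx b))) := by
    by_contra hn
    push Not at hn
    exact h1 ⟨hn true, hn false⟩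
  have r2 : ∃ τ, ¬ (H b (sel τ a (nx a)) ↔ H (nx b) (sel τ a (nx a))) := by
    by_contra hn
    push Not at hn
    have e1 := hn true
    have e2 := hn false
    exact h2 ⟨⟨fun g => h.se _ _ (e1.1 (h.se _ _ g)), fun g => h.se _ _ (e1.2 (h.se _ _ g))⟩,
      ⟨fun g => h.se _ _ (e2.1 (h.se _ _ g)), fun g => h.se _ _ (e2.2 (h.se _ _ g))⟩⟩
  obtain ⟨τ, hτ⟩ := r1
  obtain ⟨τ', hτ'⟩ := r2
  rcases dist_row h hT hp hTe ha' hτ with g | ⟨ρ, σ, g⟩
  swap
  · exact ⟨.v ρ σ τ, g⟩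
  rcases dist_row h hT hp hTe hb' hτ' with g' | ⟨ρ, σ, g'⟩
  swap
  · exact ⟨.w ρ σ τ', g'⟩
  rw [wz_sp hF ha] at g
  rw [wz_sp hF hb] at g'
  by_cases k2 : (Wz T (lv b) b a ∧ ¬ Wz T (lv b) b (nx a)) ∨
      (¬ Wz T (lv b) b a ∧ Wz T (lv b) b (nx a))
  · exact ⟨.k2, k2⟩
  by_cases k3 : (Wz T (lv a) a b ∧ ¬ Wz T (lv a) a (nx b)) ∨
      (¬ Wz T (lv a) a b ∧ Wz T (lv a) a (nx b))
  · exact ⟨.k3, k3⟩
  have m1 : Wz T (lv a) a b ∧ Wz T (lv a) a (nx b) := by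
    cases τ with
    | true =>
      refine ⟨g, ?_⟩
      by_contra g2
      exact k3 (Or.inl ⟨g, g2⟩)
    | false =>
      refine ⟨?_, g⟩
      by_contra g2
      exact k3 (Or.inr ⟨g2, g⟩)
  have m2 : Wz T (lv b) b a ∧ Wz T (lv b) b (nx a) := by
    cases τ' with
    | true =>
      refine ⟨g', ?_⟩
      by_contra g2
      exact k2 (Or.inl ⟨g', g2⟩)
    | false =>
      refine ⟨?_, g'⟩
      by_contra g2
      exact k2 (Or.inr ⟨g2, g'⟩)
  have hlv : lv a = lv b := by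
    rcases lt_trichotomy (lv a) (lv b) with q | q | q
    · exact absurd (hR.mono q (hR.trans (hR.symm m2.1) m2.2)) ha.2
    · exact q
    · exact absurd (hR.mono q (hR.trans (hR.symm m1.1) m1.2)) hb.2
  have p1 : ∃ σ τ, H (sel σ a (nx a)) (sel τ b (nx b)) := by
    by_contra hn
    push Not at hn
    exact h1 ⟨iff_of_false (hn true true) (hn false true),
      iff_of_false (hn true false) (hn false false)⟩
  have p2 : ∃ σ τ, ¬ H (sel σ a (nx a)) (sel τ b (nx b)) := by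
    by_contra hn
    push Not at hn
    exact h1 ⟨iff_of_true (hn true true) (hn false true),
      iff_of_true (hn true false) (hn false false)⟩
  obtain ⟨σ1, τ1, p1⟩ := p1
  obtain ⟨σ2, τ2, p2⟩ := p2
  exact ⟨.k1 σ1 τ1 σ2 τ2, hlv, m1.1, p1, p2⟩

theorem sel_not (hR : Nest R) {σ : Bool} {g : ℕ} {a b : V} (hn : ¬ R g a b) :
    ¬ R g (sel σ a b) (sel σ b a) := by
  cases σ with
  | true => exact hn
  | false => exact fun g' => hn (hR.symm g')

theorem sel_in (hR : Nest R) {σ : Bool} {g : ℕ} {a0 a b : V} (h1 : R g a0 a) (h2 : R g a b) :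
    R g a0 (sel σ a b) := by
  cases σ with
  | true => exact h1
  | false => exact hR.trans h1 h2

/-- Corners of the first kind: the part for one of the two graphs. -/
theorem k1_main [Finite V] (h : Cmp e f) (hT : Tr t e f W) (hp : Pr t m J L)
    (hTe : T = Tz e f m J L) (hνi : ∀ a b, ν a = ν b → a = b) {a0 : V}
    (hk : ∀ x y, Wz T i a0 x → Wz T i a0 y → ¬ Wz T (i + 1) x y → ∀ k, Sp W k x y →
      Ab t e f (W k x)) {nx : V → V} {σ τ : Bool}
    {A B : Finset V} (hA : ∀ a ∈ A, Wz T i a0 a) (hB : ∀ b ∈ B, Wz T i a0 b)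
    (hnA : ∀ a ∈ A, Nx (Wz T) ν a (nx a) ∧ Sp (Wz T) i a (nx a))
    (hnB : ∀ a ∈ B, Nx (Wz T) ν a (nx a) ∧ Sp (Wz T) i a (nx a))
    (hE : ∀ a ∈ A, ∀ b ∈ B, sel σ a (nx a) ≠ sel τ b (nx b) →
      e (sel σ a (nx a)) (sel τ b (nx b)))
    (hAc : t + 1 ≤ A.card) (hBc : 2 * t + 2 ≤ B.card) : False := by
  classical
  have hF : Fam3 T := by
    rw [hTe]
    exact tz_fam h hT hp
  have hR : Nest (Wz T) := wz_nest hF
  let ra : V → V := fun a => sel σ a (nx a)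
  let rb : V → V := fun b => sel τ b (nx b)
  have hraI : ∀ a ∈ A, ∀ a' ∈ A, Wz T (i + 1) (ra a) (ra a') → a = a' := by
    intro a ha a' ha' hw
    exact nx_uniq2 hR hνi (hnA a ha).1 (hnA a' ha').1 hw (sel_not hR (hnA a ha).2.2)
      (sel_not hR (hnA a' ha').2.2)
  have hrbI : ∀ a ∈ B, ∀ a' ∈ B, Wz T (i + 1) (rb a) (rb a') → a = a' := by
    intro a ha a' ha' hw
    exact nx_uniq2 hR hνi (hnB a ha).1 (hnB a' ha').1 hw (sel_not hR (hnB a ha).2.2)
      (sel_not hR (hnB a' ha').2.2)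
  have hinjA : Set.InjOn ra (A : Set V) := by
    intro a ha a' ha' haa
    refine hraI a ha a' ha' ?_
    rw [haa]
    exact hR.self _ _
  have hinjB : Set.InjOn rb (B : Set V) := by
    intro a ha a' ha' haa
    refine hrbI a ha a' ha' ?_
    rw [haa]
    exact hR.self _ _
  obtain ⟨A3, hA3, hA3c⟩ := Finset.exists_subset_card_eq hAc
  let bad : V → Prop := fun b => ∃ a ∈ A3, Wz T (i + 1) (ra a) (rb b)
  have hbadc : (B.filter bad).card ≤ t + 1 := by
    have h2 : (B.filter bad) ⊆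
        A3.biUnion fun a => B.filter fun b => Wz T (i + 1) (ra a) (rb b) := by
      intro b hb
      rw [Finset.mem_filter] at hb
      obtain ⟨hb, a, ha, hab⟩ := hb
      exact Finset.mem_biUnion.2 ⟨a, ha, Finset.mem_filter.2 ⟨hb, hab⟩⟩
    have h3 : ∀ a ∈ A3, (B.filter fun b => Wz T (i + 1) (ra a) (rb b)).card ≤ 1 := by
      intro a _
      rw [Finset.card_le_one]
      intro b hb b' hb'
      rw [Finset.mem_filter] at hb hb'
      exact hrbI b hb.1 b' hb'.1 (hR.trans (hR.symm hb.2) hb'.2)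
    have h4 := (Finset.card_le_card h2).trans (Finset.card_biUnion_le_card_mul _ _ _ h3)
    rw [hA3c] at h4
    omega
  have h5 := Finset.card_filter_add_card_filter_not (s := B) bad
  have hB3 : (B.filter fun b => ¬ bad b) ⊆ B := Finset.filter_subset _ _
  have hcA : (A3.image ra).card = t + 1 := by
    rw [Finset.card_image_of_injOn (hinjA.mono (fun a ha => hA3 ha)), hA3c]
  have hcB : t + 1 ≤ ((B.filter fun b => ¬ bad b).image rb).card := by
    rw [Finset.card_image_of_injOn (hinjB.mono (fun a ha => hB3 ha))]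
    omega
  refine kind1 h hT hp hTe hk (A := A3.image ra) (B := (B.filter fun b => ¬ bad b).image rb)
    ?_ ?_ ?_ ?_ ?_ (by omega) (by omega)
  · intro a ha
    rw [Finset.mem_image] at ha
    obtain ⟨a', ha', rfl⟩ := ha
    exact sel_in hR (hA a' (hA3 ha')) (hnA a' (hA3 ha')).2.1
  · intro a ha
    rw [Finset.mem_image] at ha
    obtain ⟨a', ha', rfl⟩ := ha
    exact sel_in hR (hB a' (hB3 ha')) (hnB a' (hB3 ha')).2.1
  · intro a ha b hb hab g
    rw [Finset.mem_image] at ha hb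
    obtain ⟨a', ha', rfl⟩ := ha
    obtain ⟨b', hb', rfl⟩ := hb
    exact hab (by rw [hraI a' (hA3 ha') b' (hA3 hb') g])
  · intro a ha b hb hab g
    rw [Finset.mem_image] at ha hb
    obtain ⟨a', ha', rfl⟩ := ha
    obtain ⟨b', hb', rfl⟩ := hb
    exact hab (by rw [hrbI a' (hB3 ha') b' (hB3 hb') g])
  · intro a ha b hb
    rw [Finset.mem_image] at ha hb
    obtain ⟨a', ha', rfl⟩ := ha
    obtain ⟨b', hb', rfl⟩ := hb
    have hnw : ¬ Wz T (i + 1) (ra a') (rb b') := fun g =>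
      (Finset.mem_filter.1 hb').2 ⟨a', ha', g⟩
    refine ⟨hE a' (hA3 ha') b' (hB3 hb') ?_, hnw⟩
    intro g
    apply hnw
    change Wz T (i + 1) (sel σ a' (nx a')) (sel τ b' (nx b'))
    rw [g]
    exact hR.self _ _

/-- Violations for one of the two graphs. -/
theorem v_main [Finite V] (h : Cmp e f) (hT : Tr t e f W) (hp : Pr t m J L)
    (hTe : T = Tz e f m J L) (hνi : ∀ a b, ν a = ν b → a = b) {nx : V → V} {κ : V → ℕ}
    {σ τ : Bool} {A B : Finset V}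
    (hnA : ∀ a ∈ A, Nx (Wz T) ν a (nx a) ∧ Sp W (κ a) a (nx a))
    (hnB : ∀ a ∈ B, Nx (Wz T) ν a (nx a))
    (hV : ∀ a ∈ A, ∀ b ∈ B, V1 t e f W T (κ a) a (nx a) (sel σ a (nx a)) (sel σ (nx a) a)
      (sel τ b (nx b)))
    (hco : ∀ a ∈ A, ∀ b ∈ B, ∀ M : V → Prop, Q.Mod e M → M b → M (nx b) → M a ∨ M (nx a))
    (hAc : 2 * t + 1 ≤ A.card) (hBc : t + 2 ≤ B.card) : False := by
  obtain ⟨b0, hb0⟩ : B.Nonempty := by
    rw [← Finset.card_pos]
    omega
  exact no_vi h hT hp hTe hνi (nx := nx) (κ := κ) (σ := σ) (τ := τ) (A := A) (B := B)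
    { na := fun a ha => (hnA a ha).1
      nb := hnB
      sp := fun a ha => (hnA a ha).2
      ce := fun a ha => (hV a ha b0 hb0).ce
      cf := fun a ha => (hV a ha b0 hb0).cf
      lb := fun a ha => (hV a ha b0 hb0).lb
      cl := fun a ha => (hV a ha b0 hb0).cl
      zk := fun a ha b hb => (hV a ha b hb).zk
      zf := fun a ha b hb => (hV a ha b hb).zf
      ep := fun a ha b hb => (hV a ha b hb).ep
      eq := fun a ha b hb => (hV a ha b hb).eq
      co := hco } hAc hBc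

/-- Violations. -/
theorem v_main2 [Finite V] (h : Cmp H f) (hT : Tr t H f W) (hp : Pr t m J L)
    (hTe : T = Tz H f m J L) (hνi : ∀ a b, ν a = ν b → a = b) {nx : V → V} {κ : V → ℕ}
    {ρ σ τ : Bool} {A B : Finset V}
    (hnA : ∀ a ∈ A, Nx (Wz T) ν a (nx a) ∧ Sp W (κ a) a (nx a))
    (hnB : ∀ a ∈ B, Nx (Wz T) ν a (nx a))
    (hV : ∀ a ∈ A, ∀ b ∈ B, V2 t H f W T ρ (κ a) a (nx a) (sel σ a (nx a)) (sel σ (nx a) a)
      (sel τ b (nx b)))
    (hco : ∀ a ∈ A, ∀ b ∈ B, ∀ M : V → Prop, Q.Mod H M → M b → M (nx b) → M a ∨ M (nx a))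
    (hAc : 2 * t + 1 ≤ A.card) (hBc : t + 2 ≤ B.card) : False := by
  cases ρ with
  | true => exact v_main h hT hp hTe hνi hnA hnB hV hco hAc hBc
  | false =>
    refine v_main h.symm (hT.symm h) hp ?_ hνi hnA hnB hV ?_ hAc hBc
    · rw [hTe]
      funext x y
      exact tz_swap.symm
    · exact fun a ha b hb M hM => hco a ha b hb M (mod_cmp h.symm hM)

/-- The corner relation contains no large complete bipartite graph. -/
theorem corner_free (t : ℕ) : ∃ T0 : ℕ, ∀ (V : Type) (_ : Finite V) (H f : V → V → Prop)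
    (_ : Cmp H f) (W : ℕ → V → V → Prop) (_ : Tr t H f W) (m J L : ℕ) (_ : Pr t m J L)
    (ν : V → ℕ) (_ : ∀ a b, ν a = ν b → a = b),
    BicliqueFree T0 (Corner (fun _ => True) (Rr (Wz (Tz H f m J L)) ν) (fun _ => True)
      (Rr (Wz (Tz H f m J L)) ν) H) := by
  classical
  obtain ⟨N1, hN1⟩ := ramsey Col (2 * t + 3)
  refine ⟨N1 + 1, ?_⟩
  intro V _ H f h W hT m J L hp ν hνi
  obtain ⟨T, hTe⟩ : ∃ T, T = Tz H f m J L := ⟨_, rfl⟩
  rw [← hTe]
  have hF : Fam3 T := by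
    rw [hTe]
    exact tz_fam h hT hp
  have hR : Nest (Wz T) := wz_nest hF
  have hN := hT.nest
  rintro ⟨p, q, hp', hq', hC⟩
  have hx1 : ∀ a, a ∈ Finset.univ.image p → ∃ a' i k, Nx (Wz T) ν a a' ∧
      Sp (Wz T) i a a' ∧ Sp W k a a' := by
    intro a ha
    rw [Finset.mem_image] at ha
    obtain ⟨k, _, rfl⟩ := ha
    obtain ⟨x', _, hx', _⟩ := hC k 0
    have hne : p k ≠ x' := by
      intro g
      have := hx'.2.2.1
      rw [← g] at this
      exact rr_irrefl hR _ this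
    obtain ⟨i, hi⟩ := hR.ex (p k) x' hne
    obtain ⟨j, hj⟩ := hN.ex (p k) x' hne
    exact ⟨x', i, j, hx', hi, hj⟩
  have hx2 : ∀ a, a ∈ Finset.univ.image q → ∃ a' i k, Nx (Wz T) ν a a' ∧
      Sp (Wz T) i a a' ∧ Sp W k a a' := by
    intro a ha
    rw [Finset.mem_image] at ha
    obtain ⟨k, _, rfl⟩ := ha
    obtain ⟨_, y', _, hy', _⟩ := hC 0 k
    have hne : q k ≠ y' := by
      intro g
      have := hy'.2.2.1
      rw [← g] at this
      exact rr_irrefl hR _ this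
    obtain ⟨i, hi⟩ := hR.ex (q k) y' hne
    obtain ⟨j, hj⟩ := hN.ex (q k) y' hne
    exact ⟨y', i, j, hy', hi, hj⟩
  have hx3 : ∀ a, ∃ (a' : V) (i k : ℕ), (a ∈ Finset.univ.image p ∨ a ∈ Finset.univ.image q) →
      Nx (Wz T) ν a a' ∧ Sp (Wz T) i a a' ∧ Sp W k a a' := by
    intro a
    by_cases ha : a ∈ Finset.univ.image p ∨ a ∈ Finset.univ.image q
    · rcases ha with ha | ha
      · obtain ⟨a', i, k, g⟩ := hx1 a ha
        exact ⟨a', i, k, fun _ => g⟩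
      · obtain ⟨a', i, k, g⟩ := hx2 a ha
        exact ⟨a', i, k, fun _ => g⟩
    · exact ⟨a, 0, 0, fun g => absurd g ha⟩
  choose nx lv κ hnx using hx3
  set A0 : Finset V := Finset.univ.image p with hA0
  set B0 : Finset V := Finset.univ.image q with hB0
  have hA0c : A0.card = N1 + 1 := by
    rw [hA0, Finset.card_image_of_injective _ hp', Finset.card_univ, Fintype.card_fin]
  have hB0c : B0.card = N1 + 1 := by
    rw [hB0, Finset.card_image_of_injective _ hq', Finset.card_univ, Fintype.card_fin]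
  have hcor : ∀ a ∈ A0, ∀ b ∈ B0, ¬ ((H a b ↔ H (nx a) b) ∧ (H a (nx b) ↔ H (nx a) (nx b))) ∧
      ¬ ((H a b ↔ H a (nx b)) ∧ (H (nx a) b ↔ H (nx a) (nx b))) := by
    intro a ha b hb
    have ha' := ha
    have hb' := hb
    rw [hA0, Finset.mem_image] at ha'
    rw [hB0, Finset.mem_image] at hb'
    obtain ⟨k, _, rfl⟩ := ha'
    obtain ⟨l, _, rfl⟩ := hb'
    obtain ⟨x', y', g1, g2, g3, g4⟩ := hC k l
    have e1 : x' = nx (p k) := nx_uniq hR hνi g1 (hnx _ (Or.inl ha)).1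
    have e2 : y' = nx (q l) := nx_uniq hR hνi g2 (hnx _ (Or.inr hb)).1
    subst e1 e2
    exact ⟨g3, g4⟩
  have hcol : ∀ a b, ∃ c, a ∈ A0 → b ∈ B0 → CP t H f W T nx lv κ c a b := by
    intro a b
    by_cases hab : a ∈ A0 ∧ b ∈ B0
    · obtain ⟨g1, g2⟩ := hcor a hab.1 b hab.2
      have k1 := hnx a (Or.inl hab.1)
      have k2 := hnx b (Or.inr hab.2)
      obtain ⟨c, hc⟩ := col_ex h hT hp hTe k1.2.1 k2.2.1 k1.2.2 k2.2.2 g1 g2
      exact ⟨c, fun _ _ => hc⟩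
    · exact ⟨.k2, fun g1 g2 => absurd ⟨g1, g2⟩ hab⟩
  choose χ hχ using hcol
  obtain ⟨A1, B1, c, hA1, hB1, hA1c, hB1c, hχ1⟩ := hN1 V A0 B0 χ (by omega) (by omega)
  have hP : ∀ a ∈ A1, ∀ b ∈ B1, CP t H f W T nx lv κ c a b := by
    intro a ha b hb
    have h1 := hχ a b (hA1 ha) (hB1 hb)
    rw [hχ1 a ha b hb] at h1
    exact h1
  obtain ⟨a0, ha0⟩ : A1.Nonempty := by
    rw [← Finset.card_pos]
    omega
  obtain ⟨b0, hb0⟩ : B1.Nonempty := by
    rw [← Finset.card_pos]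
    omega
  have hnA : ∀ a ∈ A1, Nx (Wz T) ν a (nx a) ∧ Sp W (κ a) a (nx a) := fun a ha =>
    ⟨(hnx a (Or.inl (hA1 ha))).1, (hnx a (Or.inl (hA1 ha))).2.2⟩
  have hnB : ∀ a ∈ B1, Nx (Wz T) ν a (nx a) ∧ Sp W (κ a) a (nx a) := fun a ha =>
    ⟨(hnx a (Or.inr (hB1 ha))).1, (hnx a (Or.inr (hB1 ha))).2.2⟩
  have hcoA : ∀ a ∈ A1, ∀ b ∈ B1, ∀ M : V → Prop, Q.Mod H M → M b → M (nx b) →
      M a ∨ M (nx a) := by
    intro a ha b hb M hM h1 h2
    by_contra hn
    push Not at hn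
    refine (hcor a (hA1 ha) b (hB1 hb)).2 ⟨⟨fun g => ?_, fun g => ?_⟩, fun g => ?_, fun g => ?_⟩
    · exact h.se _ _ (hM b (nx b) a h1 h2 hn.1 (h.se _ _ g))
    · exact h.se _ _ (hM (nx b) b a h2 h1 hn.1 (h.se _ _ g))
    · exact h.se _ _ (hM b (nx b) (nx a) h1 h2 hn.2 (h.se _ _ g))
    · exact h.se _ _ (hM (nx b) b (nx a) h2 h1 hn.2 (h.se _ _ g))
  have hcoB : ∀ b ∈ B1, ∀ a ∈ A1, ∀ M : V → Prop, Q.Mod H M → M a → M (nx a) →
      M b ∨ M (nx b) := by
    intro b hb a ha M hM h1 h2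
    by_contra hn
    push Not at hn
    refine (hcor a (hA1 ha) b (hB1 hb)).1 ⟨⟨fun g => ?_, fun g => ?_⟩, fun g => ?_, fun g => ?_⟩
    · exact hM a (nx a) b h1 h2 hn.1 g
    · exact hM (nx a) a b h2 h1 hn.1 g
    · exact hM a (nx a) (nx b) h1 h2 hn.2 g
    · exact hM (nx a) a (nx b) h2 h1 hn.2 g
  cases c with
  | k2 =>
    have := edge_card hR hνi (i := lv b0) (z := b0) A1 (fun a ha =>
      ⟨nx a, (hnA a ha).1, hP a ha b0 hb0⟩)
    omega
  | k3 =>
    have := edge_card hR hνi (i := lv a0) (z := a0) B1 (fun b hb =>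
      ⟨nx b, (hnB b hb).1, hP a0 ha0 b hb⟩)
    omega
  | v ρ σ τ =>
    exact v_main2 h hT hp hTe hνi hnA (fun b hb => (hnB b hb).1) hP hcoA (by omega) (by omega)
  | w ρ σ τ =>
    exact v_main2 h hT hp hTe hνi hnB (fun b hb => (hnA b hb).1) (fun b hb a ha => hP a ha b hb)
      hcoB (by omega) (by omega)
  | k1 σ τ σ' τ' =>
    obtain ⟨i, hi⟩ : ∃ i, i = lv a0 := ⟨_, rfl⟩
    have hlvB : ∀ b ∈ B1, lv b = i ∧ Wz T i a0 b := by
      intro b hb
      obtain ⟨g1, g2, _⟩ := hP a0 ha0 b hb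
      rw [← hi] at g1 g2
      exact ⟨g1.symm, g2⟩
    have hlvA : ∀ a ∈ A1, lv a = i ∧ Wz T i a0 a := by
      intro a ha
      obtain ⟨g1, g2, _⟩ := hP a ha b0 hb0
      obtain ⟨g3, g4⟩ := hlvB b0 hb0
      rw [g1, g3] at g2
      exact ⟨g1.trans g3, hR.trans g4 (hR.symm g2)⟩
    have hnA' : ∀ a ∈ A1, Nx (Wz T) ν a (nx a) ∧ Sp (Wz T) i a (nx a) := by
      intro a ha
      have h1 := hnx a (Or.inl (hA1 ha))
      rw [(hlvA a ha).1] at h1
      exact ⟨h1.1, h1.2.1⟩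
    have hnB' : ∀ b ∈ B1, Nx (Wz T) ν b (nx b) ∧ Sp (Wz T) i b (nx b) := by
      intro b hb
      have h1 := hnx b (Or.inr (hB1 hb))
      rw [(hlvB b hb).1] at h1
      exact ⟨h1.1, h1.2.1⟩
    have hTm : ∀ x y, Wz T i a0 x → Wz T i a0 y → ¬ Wz T (i + 1) x y → ∀ z,
        Tz H f m J L x y z ↔ Wz T i a0 z := by
      intro x y hx hy hxy z
      have hsp : Sp (Wz T) i x y := ⟨hR.trans (hR.symm hx) hy, hxy⟩
      rw [← hTe, wz_sp hF hsp z, hR.eq _ _ _ hx]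
    by_cases hk : ∀ x y, Wz T i a0 x → Wz T i a0 y → ¬ Wz T (i + 1) x y → ∀ k, Sp W k x y →
        Ab t H f (W k x)
    · exact k1_main h hT hp hTe hνi hk (fun a ha => (hlvA a ha).2) (fun b hb => (hlvB b hb).2)
        hnA' hnB' (fun a ha b hb _ => (hP a ha b hb).2.2.1) (by omega) (by omega)
    · push Not at hk
      obtain ⟨x, y, hx, hy, hxy, k, hk, hAb⟩ := hk
      refine k1_main h.symm (hT.symm h) hp ?_ hνi ?_ (fun a ha => (hlvA a ha).2)
        (fun b hb => (hlvB b hb).2) hnA' hnB' (σ := σ') (τ := τ')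
        (fun a ha b hb g => (h.symm.ef _ _ g).2 (hP a ha b hb).2.2.2) (by omega) (by omega)
      · rw [hTe]
        funext x y
        exact tz_swap.symm
      · intro u v hu hv huv l hl
        by_contra hn
        exact kind_uni h hT hp hk hl (fun z => (hTm x y hx hy hxy z).trans
          (hTm u v hu hv huv z).symm) hAb hn

end Z

end P1346e8
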