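import Pool.Agent.Lib.P1346Z.Tz
import Pool.Agent.Lib.P1346K.DefK

/-!
# The order is first-order definable
-/

set_option autoImplicit false

namespace P1346e8

namespace Z

open Q

universe u

variable {ι : Type u} {β υ : Type} {F : Fam ι β υ} {H e f lt : (i : ι) → F.X i → F.X i → Prop}
  {N : (i : ι) → F.X i → F.X i → F.X i → Prop}

theorem def4_at {Q : (i : ι) → F.X i → F.X i → F.X i → F.X i → Prop}
    (h : F.Def (n := 4) (fun i v => Q i (v 0) (v 1) (v 2) (v 3))) {n : ℕ} (j k l o : Fin n) :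
    F.Def (fun i (v : Fin n → F.X i) => Q i (v j) (v k) (v l) (v o)) :=
  Fam.Def.subst h ![j, k, l, o]

theorem def4_Pn (he : F.Def2 e) (hN : F.Def3 N) (n : ℕ) :
    F.Def (n := 4) (fun i v => Pn (e i) (N i (v 0) (v 1)) n (v 2) (v 3)) := by
  induction n with
  | zero => exact Fam.Def.eq _ _ _
  | succ n ih =>
    exact Fam.Def.or ih (Fam.Def.ex (Fam.Def.and (Fam.Def2.at he _ _)
      (Fam.Def.and (Fam.Def.not (Fam.Def3.at hN _ _ _))
        (def4_at (Q := fun i x y v c => Pn (e i) (N i x y) n v c) ih _ _ _ _))))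

theorem def3_Sq (he : F.Def2 e) (hN : F.Def3 N) (m : ℕ) :
    F.Def3 (fun i x y => Sq (e i) (N i x y) m x y) :=
  Fam.Def.or (def4_at (Q := fun i x y v c => Pn (e i) (N i x y) m v c) (def4_Pn he hN m) 0 1 0 2)
    (def4_at (Q := fun i x y v c => Pn (e i) (N i x y) m v c) (def4_Pn he hN m) 0 1 1 2)

theorem def3_Nn (he : F.Def2 e) (m j : ℕ) : F.Def3 (fun i => Nn (e i) m j) := by
  induction j with
  | zero => exact Fam.Def.and (Fam.Def2.at he _ _) (Fam.Def2.at he _ _)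
  | succ j ih =>
    exact Fam.Def.all (Fam.Def.imp (Fam.Def3.at (def3_Sq he ih m) _ _ _) (Fam.Def2.at he _ _))

theorem def3_Te (he : F.Def2 e) (m J : ℕ) : F.Def3 (fun i => Te (e i) m J) :=
  def3_Form he (def3_Nn he m J) m

theorem def2_Stab (he : F.Def2 e) (m J : ℕ) : F.Def2 (fun i => Stab (e i) m J) :=
  Fam.Def.all (Fam.Def.imp (Fam.Def3.at (def3_Nn he m J) _ _ _)
    (Fam.Def3.at (def3_Nn he m (J + 1)) _ _ _))

theorem def3_Pt (he : F.Def2 e) (hf : F.Def2 f) (m J n : ℕ) :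
    F.Def3 (fun i x y => Pt (f i) (Sq (e i) (Nn (e i) m J x y) m x y) y n) := by
  induction n with
  | zero => exact Fam.Def.eq _ _ _
  | succ n ih =>
    exact Fam.Def.or (Fam.Def.eq _ _ _) (Fam.Def.ex (Fam.Def.and
      (Fam.Def3.at (def3_Sq he (def3_Nn he m J) m) _ _ _) (Fam.Def.and (Fam.Def2.at hf _ _)
        (Fam.Def3.at ih _ _ _))))

theorem def2_Gd (he : F.Def2 e) (hf : F.Def2 f) (m J L : ℕ) :
    F.Def2 (fun i => Gd (e i) (f i) m J L) :=
  Fam.Def.and (def2_Stab he m J) (Fam.Def3.at (def3_Pt he hf m J L) 0 1 0)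

theorem def2_Se (he : F.Def2 e) (hf : F.Def2 f) (m J L : ℕ) :
    F.Def2 (fun i => Se (e i) (f i) m J L) :=
  Fam.Def.and (Fam.Def2.at (def2_Gd he hf m J L) _ _)
    (Fam.Def.not (Fam.Def.ex (Fam.Def.ex
      (Fam.Def.and (Fam.Def.not (Fam.Def.eq _ _ _))
        (Fam.Def.and (Fam.Def3.at (def3_Te he m J) _ _ _)
          (Fam.Def.and (Fam.Def3.at (def3_Te he m J) _ _ _)
            (Fam.Def.and (Fam.Def.not (Fam.Def2.at (def2_Gd he hf m J L) _ _))
              (Fam.Def.and (Fam.Def2.at (def2_Gd hf he m J L) _ _)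
                (Fam.Def.and (Fam.Def3.at (def3_Te hf m J) _ _ _)
                  (Fam.Def3.at (def3_Te hf m J) _ _ _))))))))))

theorem def3_Tz (he : F.Def2 e) (hf : F.Def2 f) (m J L : ℕ) :
    F.Def3 (fun i => Tz (e i) (f i) m J L) :=
  Fam.Def.and
    (Fam.Def.imp (Fam.Def2.at (def2_Se he hf m J L) _ _) (Fam.Def3.at (def3_Te he m J) _ _ _))
    (Fam.Def.imp (Fam.Def2.at (def2_Se hf he m J L) _ _) (Fam.Def3.at (def3_Te hf m J) _ _ _))

end Z

end P1346e8
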