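import Pool.Agent.Lib.P1346Q.Mods

/-!
# Graphs whose quotients are biclique-free or the complements of biclique-free graphs
-/

set_option autoImplicit false

namespace P1346e8

/-- The graph of the edges (`c` true) or non-edges (`c` false) of `H` between different blocks of `W`. -/
def qGraph {V : Type} (H : V → V → Prop) (W : V → Prop) (b : V → ℕ) (c : Prop) (n m : ℕ) : Prop :=
  n ≠ m ∧ ∃ u v, W u ∧ W v ∧ b u = n ∧ b v = m ∧ (H u v ↔ c)

/-- Every set `W` of at least two vertices can be divided into at least two blocks such that the adjacency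
between any two different blocks is constant and the quotient graph of the edges or that of the non-edges
contains no `K_{t,t}`. -/
def BfDec {V : Type} (t : ℕ) (H : V → V → Prop) : Prop :=
  ∀ W : V → Prop, (∃ u v, W u ∧ W v ∧ u ≠ v) → ∃ b : V → ℕ, (∃ u v, W u ∧ W v ∧ b u ≠ b v) ∧
    (∀ u u' v v', W u → W u' → W v → W v' → b u = b u' → b v = b v' → b u ≠ b v →
      (H u v ↔ H u' v')) ∧
    ∃ c : Prop, BicliqueFree t (qGraph H W b c)

namespace Z

open Q

variable {V : Type} {H f e : V → V → Prop} {W K : V → Prop} {t : ℕ}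

/-- Different elements are in different blocks of `K`. -/
def Ind (e : V → V → Prop) (K : V → Prop) (B : Finset V) : Prop :=
  ∀ b ∈ B, ∀ b' ∈ B, b ≠ b' → ¬ SB e K b b'

theorem Ind.subset {B B' : Finset V} (h : Ind e K B) (hs : B' ⊆ B) :
    Ind e K B' := fun b hb b' hb' => h b (hs hb) b' (hs hb')

theorem Ind.eq {B : Finset V} (h : Ind e K B) {b b' : V} (hb : b ∈ B)
    (hb' : b' ∈ B) (hs : SB e K b b') : b = b' := by
  by_contra hne
  exact h b hb b' hb' hne hs

/-- Adjacency between blocks: change of the representative. -/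
theorem blk_adj (h : Cmp e f) (hKe : Conn e K) (hKf : Conn f K) {b u y : V} (hb : K b) (hu : K u)
    (hbu : SB e K b u) (hy : ¬ SB e K b y) : e b y ↔ e u y := by
  have hm := sb_mod h hKe hKf b
  exact ⟨fun g => hm b u y ⟨hb, Or.inl rfl⟩ ⟨hu, hbu⟩ (fun g' => hy g'.2) g,
    fun g => hm u b y ⟨hu, hbu⟩ ⟨hb, Or.inl rfl⟩ (fun g' => hy g'.2) g⟩

/-- The quotient of `K` contains no `K_{t,t}`. -/
def Lb (t : ℕ) (e : V → V → Prop) (K : V → Prop) : Prop :=
  ∃ β : V → ℕ, (∀ a b, K a → K b → β a = β b → SB e K a b) ∧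
    BicliqueFree t (fun n m => n ≠ m ∧ ∃ u v, K u ∧ K v ∧ β u = n ∧ β v = m ∧ e u v)

theorem labels (h : Cmp H f) (hB : BfDec t H) (hK : Q.Mod H K) {u u' : V}
    (hu : K u) (hu' : K u') (hne : u ≠ u') : Lb t H K ∨ Lb t f K := by
  obtain ⟨β, ⟨p, q, hp, hq, hpq⟩, hc, c, hd⟩ := hB K ⟨u, u', hu, hu', hne⟩
  have hcls : ∀ a b, K a → K b → β a = β b → SB H K a b := by
    intro a b ha hb hab
    refine Or.inr ⟨fun z => K z ∧ β z = β a, ?_, ⟨ha, rfl⟩, ⟨hb, hab.symm⟩, fun z hz => hz.1, ?_⟩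
    · rintro v w y ⟨hv, hv'⟩ ⟨hw, hw'⟩ hy hvy
      by_cases hyK : K y
      · have hne : β v ≠ β y := by
          intro g
          exact hy ⟨hyK, by rw [← g, hv']⟩
        exact (hc v w y y hv hw hyK hyK (by rw [hv', hw']) rfl hne).1 hvy
      · exact hK v w y hv hw hyK hvy
    · by_cases hpa : β p = β a
      · exact ⟨q, hq, fun g => hpq (by rw [hpa, g.2])⟩
      · exact ⟨p, hp, fun g => hpa g.2⟩
  have hfH : ∀ a b, β a ≠ β b → (f a b ↔ ¬ H a b) := fun a b hab =>
    h.symm.ef a b (fun g => hab (by rw [g]))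
  by_cases hcc : c
  · left
    refine ⟨β, hcls, ?_⟩
    rintro ⟨p', q', h1, h2, h3⟩
    refine hd ⟨p', q', h1, h2, fun i j => ?_⟩
    obtain ⟨g1, a, b, g2, g3, g4, g5, g6⟩ := h3 i j
    exact ⟨g1, a, b, g2, g3, g4, g5, iff_of_true g6 hcc⟩
  · right
    refine ⟨β, ?_, ?_⟩
    · intro a b ha hb hab
      rcases hcls a b ha hb hab with g | ⟨M, g1, g2⟩
      · exact Or.inl g
      · exact Or.inr ⟨M, mod_cmp h g1, g2⟩
    · rintro ⟨p', q', h1, h2, h3⟩
      refine hd ⟨p', q', h1, h2, fun i j => ?_⟩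
      obtain ⟨g1, a, b, g2, g3, g4, g5, g6⟩ := h3 i j
      exact ⟨g1, a, b, g2, g3, g4, g5,
        iff_of_false ((hfH a b (by rw [g4, g5]; exact g1)).1 g6) hcc⟩

/-- No large complete bipartite graph of blocks. -/
theorem ktt_K (hl : Lb t e K) (A B : Finset V) (hA : ∀ a ∈ A, K a)
    (hBK : ∀ b ∈ B, K b) (hIA : Ind e K A) (hIB : Ind e K B)
    (hAB : ∀ a ∈ A, ∀ b ∈ B, e a b ∧ ¬ SB e K a b) (hcA : t ≤ A.card) (hcB : t ≤ B.card) :
    False := by
  obtain ⟨β, cls, hl⟩ := hl
  obtain ⟨p⟩ := Function.Embedding.nonempty_of_card_le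
    (show Fintype.card (Fin t) ≤ Fintype.card A by simpa using hcA)
  obtain ⟨q⟩ := Function.Embedding.nonempty_of_card_le
    (show Fintype.card (Fin t) ≤ Fintype.card B by simpa using hcB)
  refine hl ⟨fun i => β (p i).1, fun j => β (q j).1, ?_, ?_, ?_⟩
  · intro i j hij
    by_contra hne
    have h1 := hIA.eq (p i).2 (p j).2 (cls _ _ (hA _ (p i).2) (hA _ (p j).2) hij)
    exact hne (p.injective (Subtype.ext h1))
  · intro i j hij
    by_contra hne
    have h1 := hIB.eq (q i).2 (q j).2 (cls _ _ (hBK _ (q i).2) (hBK _ (q j).2) hij)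
    exact hne (q.injective (Subtype.ext h1))
  · intro i j
    have h1 := hAB _ (p i).2 _ (q j).2
    exact ⟨fun g => h1.2 (cls _ _ (hA _ (p i).2) (hBK _ (q j).2) g), (p i).1, (q j).1,
      hA _ (p i).2, hBK _ (q j).2, rfl, rfl, h1.1⟩

/-- No long induced path of the complement. -/
theorem anti_K (hl : Lb t e K) (p : ℕ → V) (hp : ∀ i, i ≤ 2 * t → K (p i))
    (hpp : ∀ i j, i < j → j ≤ 2 * t → ¬ SB e K (p i) (p j))
    (hadj : ∀ i j, i + 1 < j → j ≤ 2 * t → e (p i) (p j)) : False := by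
  classical
  have hinj : ∀ i j, i < j → j ≤ 2 * t → p i ≠ p j := fun i j hij hj g =>
    hpp i j hij hj (Or.inl g)
  have hIm : ∀ c, c + t ≤ 2 * t + 1 → ((Finset.range t).image fun i => p (c + i)).card = t ∧
      Ind e K ((Finset.range t).image fun i => p (c + i)) := by
    intro c hc
    constructor
    · rw [Finset.card_image_of_injOn, Finset.card_range]
      intro i hi j hj hij
      rw [Finset.mem_coe, Finset.mem_range] at hi hj
      rcases lt_trichotomy i j with g | g | g
      · exact absurd hij (hinj _ _ (by omega) (by omega))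
      · exact g
      · exact absurd hij.symm (hinj _ _ (by omega) (by omega))
    · intro a ha b hb hab
      rw [Finset.mem_image] at ha hb
      obtain ⟨i, hi, rfl⟩ := ha
      obtain ⟨j, hj, rfl⟩ := hb
      rw [Finset.mem_range] at hi hj
      rcases lt_trichotomy i j with g | g | g
      · exact hpp _ _ (by omega) (by omega)
      · subst g
        exact absurd rfl hab
      · exact fun g' => hpp _ _ (by omega) (by omega) (sb_symm g')
  refine ktt_K hl ((Finset.range t).image fun i => p (0 + i))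
    ((Finset.range t).image fun i => p (t + 1 + i)) ?_ ?_ (hIm 0 (by omega)).2
    (hIm (t + 1) (by omega)).2 ?_ (hIm 0 (by omega)).1.ge (hIm (t + 1) (by omega)).1.ge
  · intro a ha
    rw [Finset.mem_image] at ha
    obtain ⟨i, hi, rfl⟩ := ha
    rw [Finset.mem_range] at hi
    exact hp _ (by omega)
  · intro a ha
    rw [Finset.mem_image] at ha
    obtain ⟨i, hi, rfl⟩ := ha
    rw [Finset.mem_range] at hi
    exact hp _ (by omega)
  · intro a ha b hb
    rw [Finset.mem_image] at ha hb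
    obtain ⟨i, hi, rfl⟩ := ha
    obtain ⟨j, hj, rfl⟩ := hb
    rw [Finset.mem_range] at hi hj
    exact ⟨hadj _ _ (by omega) (by omega), hpp _ _ (by omega) (by omega)⟩

theorem sb_cmp (h : Cmp e f) {x y : V} (hs : SB e K x y) : SB f K x y := by
  rcases hs with rfl | ⟨M, h1, h2⟩
  · exact Or.inl rfl
  · exact Or.inr ⟨M, mod_cmp h h1, h2⟩

/-- A module that meets two blocks contains the prime module. -/
theorem sub_of_mod {M : V → Prop} {x y z : V} (hK : Q.Mod e K) (hx : K x) (hy : K y)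
    (hxy : ¬ SB e K x y) (hM : Q.Mod e M) (hMx : M x) (hMy : M y) (hz : K z) : M z := by
  by_contra hn
  refine hxy (Or.inr ⟨fun z => M z ∧ K z, ?_, ⟨hMx, hx⟩, ⟨hMy, hy⟩, fun z hz => hz.2, z, hz,
    fun g => hn g.1⟩)
  intro u v w hu hv hw huw
  by_cases hwK : K w
  · exact hM u v w hu.1 hv.1 (fun g => hw ⟨g, hwK⟩) huw
  · exact hK u v w hu.2 hv.2 hwK huw

end Z

end P1346e8
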