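import Pool.Agent.Lib.P1346Z.Defs
import Pool.Agent.Lib.P1346Q.Corr

/-!
# Sets described by their dominators: general properties
-/

set_option autoImplicit false

namespace P1346e8

namespace Z

open Q

variable {V : Type} {e e' : V → V → Prop} {N N1 N2 Y : V → Prop} {m n : ℕ} {x y u v w z c d : V}

/-- `c` can be reached from `v` by at most `n` steps outside `N`. -/
def Pn (e : V → V → Prop) (N : V → Prop) : ℕ → V → V → Prop
  | 0, v, c => v = c
  | n + 1, v, c => Pn e N n v c ∨ ∃ u, e v u ∧ ¬ N u ∧ Pn e N n u c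

theorem pn_self (n : ℕ) (v : V) : Pn e N n v v := by
  cases n with
  | zero => rfl
  | succ n =>
    left
    induction n with
    | zero => rfl
    | succ n ih => exact Or.inl ih

theorem pn_mono {k : ℕ} (hk : n ≤ k) (hp : Pn e N n v c) : Pn e N k v c := by
  induction hk with
  | refl => exact hp
  | step _ ih => exact Or.inl ih

theorem pn_anti (hN : ∀ d, N1 d → N2 d) : ∀ n v, Pn e N2 n v c → Pn e N1 n v c := by
  intro n
  induction n with
  | zero => exact fun v g => g
  | succ n ih =>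
    rintro v (g | ⟨u, g1, g2, g3⟩)
    · exact Or.inl (ih v g)
    · exact Or.inr ⟨u, g1, fun g => g2 (hN u g), ih u g3⟩

theorem pn_out (hv : ¬ N v) : ∀ n, Pn e N n v c → ¬ N c := by
  intro n
  induction n generalizing v with
  | zero =>
    rintro rfl
    exact hv
  | succ n ih =>
    rintro (g | ⟨u, _, g2, g3⟩)
    · exact ih hv g
    · exact ih g2 g3

theorem pn_snoc (hd : e c d) (hN : ¬ N d) : ∀ n v, Pn e N n v c → Pn e N (n + 1) v d := by
  intro n
  induction n with
  | zero =>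
    rintro v rfl
    exact Or.inr ⟨d, hd, hN, rfl⟩
  | succ n ih =>
    rintro v (g | ⟨u, g1, g2, g3⟩)
    · exact Or.inl (ih v g)
    · exact Or.inr ⟨u, g1, g2, ih u g3⟩

theorem pn_step (hd : e v d) (hN : ¬ N d) (hn : 1 ≤ n) : Pn e N n v d :=
  pn_mono hn (Or.inr ⟨d, hd, hN, rfl⟩)

theorem pn_step2 (hd : e v d) (hN : ¬ N d) (hc : e d c) (hN' : ¬ N c) (hn : 2 ≤ n) :
    Pn e N n v c :=
  pn_mono hn (Or.inr ⟨d, hd, hN, Or.inr ⟨c, hc, hN', rfl⟩⟩)

theorem pn_last : ∀ n v, Pn e N (n + 1) v c → v = c ∨ ∃ u, Pn e N n v u ∧ e u c ∧ ¬ N c := by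
  intro n
  induction n with
  | zero =>
    rintro v (g | ⟨u, g1, g2, g3⟩)
    · exact Or.inl g
    · right
      change u = c at g3
      subst g3
      exact ⟨v, rfl, g1, g2⟩
  | succ n ih =>
    rintro v (g | ⟨u, g1, g2, g3⟩)
    · rcases ih v g with g' | ⟨w, k1, k2, k3⟩
      · exact Or.inl g'
      · exact Or.inr ⟨w, Or.inl k1, k2, k3⟩
    · right
      rcases ih u g3 with g' | ⟨w, k1, k2, k3⟩
      · subst g'
        exact ⟨v, pn_self _ _, g1, g2⟩
      · exact ⟨w, Or.inr ⟨u, g1, g2, k1⟩, k2, k3⟩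

theorem form_iff : Form e N m v ↔ ¬ N v ∧ ∀ c, Pn e N m v c → ∀ n, N n → e c n := by
  constructor
  · rintro ⟨⟨g1, g2⟩, g3⟩
    refine ⟨g1, ?_⟩
    have key : ∀ k v, ¬ N v → ¬ Lv e N k v → ∀ c, Pn e N k v c → ∀ n, N n → e c n := by
      intro k
      induction k with
      | zero =>
        rintro v hv hL c rfl n hn
        by_contra g
        exact hL ⟨hv, fun g' => g (g'.2 n hn)⟩
      | succ k ih =>
        rintro v hv hL c (g | ⟨u, k1, k2, k3⟩) n hn
        · exact ih v hv (fun g' => hL (Or.inl g')) c g n hn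
        · exact ih u k2 (fun g' => hL (Or.inr ⟨u, k1, k2, g'⟩)) c k3 n hn
    exact key m v g1 g3
  · rintro ⟨g1, g2⟩
    refine ⟨⟨g1, g2 v (pn_self m v)⟩, ?_⟩
    have key : ∀ k v, ¬ N v → (∀ c, Pn e N k v c → ∀ n, N n → e c n) → ¬ Lv e N k v := by
      intro k
      induction k with
      | zero =>
        rintro v hv hL ⟨_, g⟩
        exact g ⟨hv, hL v rfl⟩
      | succ k ih =>
        rintro v hv hL (g | ⟨u, k1, k2, k3⟩)
        · exact ih v hv (fun c hc => hL c (Or.inl hc)) g
        · exact ih u k2 (fun c hc => hL c (Or.inr ⟨u, k1, k2, hc⟩)) k3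
    exact key m v g1 g2

/-- `N` is the largest set of dominators of the neighbourhoods of `x` and `y`. -/
def IsMax (e : V → V → Prop) (m : ℕ) (N : V → Prop) (x y : V) : Prop :=
  Form e N m x ∧ Form e N m y ∧
    ∀ N' : V → Prop, Form e N' m x → Form e N' m y → ∀ d, N' d → N d

/-- The neighbourhoods of `x` and `y`. -/
def Sq (e : V → V → Prop) (N : V → Prop) (m : ℕ) (x y c : V) : Prop :=
  Pn e N m x c ∨ Pn e N m y c

/-- First inclusion: more dominators, smaller sets. -/
theorem form_anti (h12 : ∀ d, N1 d → N2 d) (hs : ∀ u v, e u v → e v u)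
    (h1 : Form e N1 m z) (h2 : Form e N2 m z) (hv : Form e N2 m v) : Form e N1 m v := by
  rw [form_iff] at h1 h2 hv ⊢
  refine ⟨fun g => hv.1 (h12 v g), ?_⟩
  have hz : ∀ d, N2 d → e z d := h2.2 z (pn_self m z)
  have key : ∀ k, k ≤ m → ∀ u, ¬ N2 u → (∀ c, Pn e N2 k u c → ∀ n, N2 n → e c n) →
      ∀ c, Pn e N1 k u c → Pn e N2 k u c ∨ Pn e N1 k z c := by
    intro k
    induction k with
    | zero =>
      intro _ u _ _ c hc
      exact Or.inl hc
    | succ k ih =>
      rintro hk u hu hL c (g | ⟨w, g1, g2, g3⟩)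
      · rcases ih (by omega) u hu (fun c hc => hL c (Or.inl hc)) c g with g' | g'
        · exact Or.inl (Or.inl g')
        · exact Or.inr (Or.inl g')
      · by_cases hw : N2 w
        · exact Or.inr (Or.inr ⟨w, hz w hw, g2, g3⟩)
        · rcases ih (by omega) w hw (fun c hc => hL c (Or.inr ⟨w, g1, hw, hc⟩)) c g3 with g' | g'
          · exact Or.inl (Or.inr ⟨w, g1, hw, g'⟩)
          · exact Or.inr (Or.inl g')
  intro c hc n hn
  rcases key m le_rfl v hv.1 hv.2 c hc with g | g
  · exact hv.2 c g n (h12 n hn)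
  · exact h1.2 c g n hn

/-- Second inclusion: the dominator sets of a proper pair are comparable with all others. -/
theorem comparable {f : V → V → Prop} (h : Cmp e f) (hm : 2 ≤ m) (hM : IsMax e m N1 x y)
    (hP : ∀ X : V → Prop, X x → (∀ u w, X u → Sq e N1 m x y u → Sq e N1 m x y w → f u w → X w) →
      X y)
    (h1 : Form e N1 m z) (h2 : Form e N2 m z) :
    (∀ d, N1 d → N2 d) ∨ ∀ d, N2 d → N1 d := by
  by_contra hn
  push Not at hn
  obtain ⟨⟨d1, hd1, hd1'⟩, d2, hd2, hd2'⟩ := hn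
  obtain ⟨hx, hy, hmax⟩ := hM
  rw [form_iff] at h1 h2
  have z1 : ∀ d, N1 d → e z d := h1.2 z (pn_self m z)
  have z2 : ∀ d, N2 d → e z d := h2.2 z (pn_self m z)
  -- adjacency to the symmetric difference
  have c2 : ∀ w, ¬ N1 w → ¬ N2 w → ∀ d, N1 d → ¬ N2 d → e w d → ∀ n, N2 n → e w n := by
    intro w _ hw2 d hd hd' hwd
    exact h2.2 w (pn_step2 (z1 d hd) hd' (h.se _ _ hwd) hw2 hm)
  have c1 : ∀ w, ¬ N1 w → ¬ N2 w → ∀ d, N2 d → ¬ N1 d → e w d → ∀ n, N1 n → e w n := by
    intro w hw1 _ d hd hd' hwd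
    exact h1.2 w (pn_step2 (z2 d hd) hd' (h.se _ _ hwd) hw1 hm)
  have hxf := form_iff.1 hx
  have hyf := form_iff.1 hy
  have hS1 : ∀ c, Sq e N1 m x y c → ¬ N1 c := by
    rintro c (g | g)
    · exact pn_out hxf.1 m g
    · exact pn_out hyf.1 m g
  have hS2 : ∀ c, Sq e N1 m x y c → ∀ n, N1 n → e c n := by
    rintro c (g | g)
    · exact hxf.2 c g
    · exact hyf.2 c g
  -- no step of `f` between `N2` and its complement inside the neighbourhoods
  have hcut : ∀ u w, Sq e N1 m x y u → Sq e N1 m x y w → N2 u → ¬ N2 w → ¬ f u w := by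
    intro u w hu hw hNu hNw hf
    have k1 : e w u := c2 w (hS1 w hw) hNw d1 hd1 hd1' (hS2 w hw d1 hd1) u hNu
    exact (h.ef u w (h.ne_f hf)).1 (h.se _ _ k1) hf
  have hsx : Sq e N1 m x y x := Or.inl (pn_self m x)
  have hsy : Sq e N1 m x y y := Or.inr (pn_self m y)
  by_cases hxN : N2 x
  · have hyN : N2 y := by
      refine hP N2 hxN ?_
      intro u w hu hSu hSw hf
      by_contra hw
      exact hcut u w hSu hSw hu hw hf
    have key : ∀ v, N2 v → (∀ c, Pn e N1 m v c → Sq e N1 m x y c) → ¬ N1 v →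
        Form e (fun d => N1 d ∨ (Sq e N1 m x y d ∧ ¬ N2 d)) m v := by
      intro v hv hvS hv1
      rw [form_iff]
      refine ⟨?_, ?_⟩
      · rintro (g | g)
        · exact hv1 g
        · exact g.2 hv
      · intro c hc n hn
        have hcS := hvS c (pn_anti (fun d hd => Or.inl hd) m v hc)
        have hcN : ¬ (N1 c ∨ (Sq e N1 m x y c ∧ ¬ N2 c)) := by
          refine pn_out (N := fun d => N1 d ∨ (Sq e N1 m x y d ∧ ¬ N2 d)) ?_ m hc
          rintro (g | g)
          · exact hv1 g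
          · exact g.2 hv
        push Not at hcN
        have hc2 := hcN.2 hcS
        rcases hn with hn | ⟨hn1, hn2⟩
        · exact hS2 c hcS n hn
        · exact h.se _ _ (c2 n (hS1 n hn1) hn2 d1 hd1 hd1' (hS2 n hn1 d1 hd1) c hc2)
    have hall := hmax _ (key x hxN (fun c hc => Or.inl hc) hxf.1)
      (key y hyN (fun c hc => Or.inr hc) hyf.1)
    have hzS : Sq e N1 m x y z := Or.inl (pn_step (h.se _ _ (z2 x hxN)) h1.1 (by omega))
    exact h1.1 (hall z (Or.inr ⟨hzS, h2.1⟩))
  · have hyN : ¬ N2 y := by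
      refine hP (fun u => ¬ N2 u) hxN ?_
      intro u w hu hSu hSw hf hw
      exact hcut w u hSw hSu hw hu (h.sf _ _ hf)
    have key : ∀ v, ¬ N2 v → (∀ c, Pn e N1 m v c → Sq e N1 m x y c) → ¬ N1 v →
        Form e (fun d => N1 d ∨ N2 d) m v := by
      intro v hv hvS hv1
      rw [form_iff]
      refine ⟨fun g => g.elim hv1 hv, ?_⟩
      intro c hc n hn
      have hcS := hvS c (pn_anti (fun d hd => Or.inl hd) m v hc)
      have hcN : ¬ (N1 c ∨ N2 c) := by
        refine pn_out (N := fun d => N1 d ∨ N2 d) ?_ m hc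
        exact fun g => g.elim hv1 hv
      push Not at hcN
      rcases hn with hn | hn
      · exact hS2 c hcS n hn
      · exact c2 c hcN.1 hcN.2 d1 hd1 hd1' (hS2 c hcS d1 hd1) n hn
    exact hd2' (hmax _ (key x hxN (fun c hc => Or.inl hc) hxf.1)
      (key y hyN (fun c hc => Or.inr hc) hyf.1) d2 (Or.inr hd2))

/-- A module without dominators is inside or outside. -/
theorem form_mod (hs : ∀ u v, e u v → e v u) (hY : Q.Mod e Y) (hN : ∀ d, N d → ¬ Y d) (hz : Y z)
    (hzF : Form e N m z) (hw : Y w) : Form e N m w := by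
  rw [form_iff] at hzF ⊢
  have key : ∀ k w, Y w → ∀ c, Pn e N k w c → Y c ∨ Pn e N k z c := by
    intro k
    induction k with
    | zero =>
      rintro w hw c rfl
      exact Or.inl hw
    | succ k ih =>
      rintro w hw c (g | ⟨u, g1, g2, g3⟩)
      · rcases ih w hw c g with g' | g'
        · exact Or.inl g'
        · exact Or.inr (Or.inl g')
      · by_cases hu : Y u
        · rcases ih u hu c g3 with g' | g'
          · exact Or.inl g'
          · exact Or.inr (Or.inl g')
        · exact Or.inr (Or.inr ⟨u, hY w z u hw hz hu g1, g2, g3⟩)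
  refine ⟨fun g => hN w g hw, fun c hc n hn => ?_⟩
  rcases key m w hw c hc with g | g
  · exact hY z c n hz g (hN n hn) (hzF.2 z (pn_self m z) n hn)
  · exact hzF.2 c g n hn

/-- A module that does not contain the pair. -/
theorem max_mod (hs : ∀ u v, e u v → e v u) (hM : IsMax e m N x y) (hY : Q.Mod e Y) (hx : ¬ Y x)
    (hy : ¬ Y y) (hd : N d) (hdY : Y d) (hw : Y w) : N w := by
  obtain ⟨hxF, hyF, hmax⟩ := hM
  have key : ∀ v, ¬ Y v → Form e N m v → Form e (fun d => N d ∨ Y d) m v := by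
    intro v hv hF
    rw [form_iff] at hF ⊢
    refine ⟨fun g => g.elim hF.1 hv, ?_⟩
    intro c hc n hn
    have hcF := hF.2 c (pn_anti (fun d hd => Or.inl hd) m v hc)
    have hcN : ¬ (N c ∨ Y c) := by
      refine pn_out (N := fun d => N d ∨ Y d) ?_ m hc
      exact fun g => g.elim hF.1 hv
    push Not at hcN
    rcases hn with hn | hn
    · exact hcF n hn
    · exact hs _ _ (hY d n c hdY hn hcN.2 (hs _ _ (hcF d hd)))
  exact hmax _ (key x hx hxF) (key y hy hyF) w (Or.inr hw)

/-- A module that meets the set, and does not contain the pair, is inside. -/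
theorem mod_sub (hs : ∀ u v, e u v → e v u) (hM : IsMax e m N x y) (hY : Q.Mod e Y) (hx : ¬ Y x)
    (hy : ¬ Y y) (hz : Y z) (hzF : Form e N m z) (hw : Y w) : Form e N m w := by
  refine form_mod hs hY ?_ hz hzF hw
  intro d hd hdY
  exact (form_iff.1 hzF).1 (max_mod hs hM hY hx hy hd hdY hz)

/-- The set of the outside neighbours of a module that contains the pair. -/
theorem ne_sub {f : V → V → Prop} (h : Cmp e f) (hM : IsMax e m N x y) (hY : Q.Mod e Y)
    (hx : Y x) (hy : Y y) (hd : Ne e Y d) : N d :=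
  hM.2.2 _ (form_in h hY hx m) (form_in h hY hy m) d hd

/-- The set is described by its outside neighbours. -/
def Ds (e : V → V → Prop) (m : ℕ) (W : V → Prop) : Prop := ∀ z, Form e (Ne e W) m z ↔ W z

/-- The set of a pair in a described module is in the module. -/
theorem form_sub {f : V → V → Prop} (h : Cmp e f) (hM : IsMax e m N x y) (hY : Q.Mod e Y)
    (hD : Ds e m Y) (hx : Y x) (hy : Y y) (hz : Form e N m z) : Y z :=
  (hD z).1 (form_anti (fun _ hd => ne_sub h hM hY hx hy hd) h.se (form_in h hY hx m) hM.1 hz)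

/-- Minimality. -/
theorem form_min (hs : ∀ u v, e u v → e v u) (hM : IsMax e m N x y) (hx : Form e N1 m x)
    (hy : Form e N1 m y) (hz : Form e N m z) : Form e N1 m z :=
  form_anti (hM.2.2 _ hx hy) hs hx hM.1 hz

end Z

end P1346e8
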