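import Pool.Agent.Lib.P1346Z.Gen

/-!
# The largest set of dominators, by iteration
-/

set_option autoImplicit false

namespace P1346e8

namespace Z

open Q

variable {V : Type} {e f : V → V → Prop} {N N1 N2 K Y : V → Prop} {m n j k J : ℕ}
  {x y u v w z c d : V}

/-- The iteration. -/
def Nn (e : V → V → Prop) (m : ℕ) : ℕ → V → V → V → Prop
  | 0, x, y, d => e d x ∧ e d y
  | j + 1, x, y, d => ∀ c, Sq e (Nn e m j x y) m x y c → e d c

/-- The iteration is stable. -/
def Stab (e : V → V → Prop) (m J : ℕ) (x y : V) : Prop :=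
  ∀ d, Nn e m J x y d → Nn e m (J + 1) x y d

/-- The set of the pair. -/
def Te (e : V → V → Prop) (m J : ℕ) (x y z : V) : Prop := Form e (Nn e m J x y) m z

theorem sq_anti (hN : ∀ d, N1 d → N2 d) (hc : Sq e N2 m x y c) : Sq e N1 m x y c := by
  rcases hc with g | g
  · exact Or.inl (pn_anti hN m x g)
  · exact Or.inr (pn_anti hN m y g)

theorem sq_x : Sq e N m x y x := Or.inl (pn_self m x)

theorem sq_y : Sq e N m x y y := Or.inr (pn_self m y)

theorem nn_sub : ∀ j d, Nn e m (j + 1) x y d → Nn e m j x y d := by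
  intro j
  induction j with
  | zero => exact fun d hd => ⟨hd x sq_x, hd y sq_y⟩
  | succ j ih => exact fun d hd c hc => hd c (sq_anti (fun d' => ih d') hc)

theorem nn_mono (hjk : j ≤ k) (hd : Nn e m k x y d) : Nn e m j x y d := by
  induction hjk with
  | refl => exact hd
  | step _ ih => exact ih (nn_sub _ _ hd)

theorem nn_adj (hd : Nn e m j x y d) : e d x ∧ e d y := nn_mono (Nat.zero_le j) hd

theorem nn_x (hi : ∀ u, ¬ e u u) : ¬ Nn e m j x y x := fun g => hi x (nn_adj g).1

theorem nn_y (hi : ∀ u, ¬ e u u) : ¬ Nn e m j x y y := fun g => hi y (nn_adj g).2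

theorem sq_out (hi : ∀ u, ¬ e u u) (hc : Sq e (Nn e m j x y) m x y c) : ¬ Nn e m j x y c := by
  rcases hc with g | g
  · exact pn_out (nn_x hi) m g
  · exact pn_out (nn_y hi) m g

theorem nn_all (hs : ∀ u v, e u v → e v u) (hx : Form e N m x) (hy : Form e N m y) :
    ∀ j d, N d → Nn e m j x y d := by
  rw [form_iff] at hx hy
  intro j
  induction j with
  | zero => exact fun d hd => ⟨hs _ _ (hx.2 x (pn_self m x) d hd), hs _ _ (hy.2 y (pn_self m y) d hd)⟩
  | succ j ih =>
    intro d hd c hc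
    rcases sq_anti ih hc with g | g
    · exact hs _ _ (hx.2 c g d hd)
    · exact hs _ _ (hy.2 c g d hd)

theorem is_max (hs : ∀ u v, e u v → e v u) (hi : ∀ u, ¬ e u u) (hS : Stab e m J x y) :
    IsMax e m (Nn e m J x y) x y := by
  refine ⟨?_, ?_, fun N' hx hy d hd => nn_all hs hx hy J d hd⟩
  · rw [form_iff]
    exact ⟨nn_x hi, fun c hc n hn => hs _ _ (hS n hn c (Or.inl hc))⟩
  · rw [form_iff]
    exact ⟨nn_y hi, fun c hc n hn => hs _ _ (hS n hn c (Or.inr hc))⟩

theorem stab_mono (hS : Stab e m j x y) (hjk : j ≤ k) :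
    Stab e m k x y ∧ ∀ d, Nn e m j x y d → Nn e m k x y d := by
  induction hjk with
  | refl => exact ⟨hS, fun d hd => hd⟩
  | @step k _ ih =>
    obtain ⟨h1, h2⟩ := ih
    exact ⟨fun d hd c hc => h1 d (nn_sub _ _ hd) c (sq_anti h1 hc), fun d hd => h1 d (h2 d hd)⟩

/-- The outside neighbours of a module. -/
theorem ne_nn (h : Cmp e f) (hY : Q.Mod e Y) (hx : Y x) (hy : Y y) (hd : Ne e Y d) :
    Nn e m j x y d :=
  nn_all h.se (form_in h hY hx m) (form_in h hY hy m) j d hd

theorem pn_mod (h : Cmp e f) (hY : Q.Mod e Y) (hN : ∀ d, Ne e Y d → N d) :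
    ∀ n v, Y v → Pn e N n v c → Y c := by
  intro n
  induction n with
  | zero =>
    rintro v hv rfl
    exact hv
  | succ n ih =>
    rintro v hv (g | ⟨u, g1, g2, g3⟩)
    · exact ih v hv g
    · refine ih u ?_ g3
      by_contra hu
      exact g2 (hN u ⟨hu, fun w hw => h.se _ _ (hY v w u hv hw hu g1)⟩)

theorem sq_mod (h : Cmp e f) (hY : Q.Mod e Y) (hx : Y x) (hy : Y y)
    (hc : Sq e (Nn e m j x y) m x y c) : Y c := by
  rcases hc with g | g
  · exact pn_mod h hY (fun d hd => ne_nn h hY hx hy hd) m x hx g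
  · exact pn_mod h hY (fun d hd => ne_nn h hY hx hy hd) m y hy g

theorem nn_out (h : Cmp e f) (hY : Q.Mod e Y) (hx : Y x) (hd : Nn e m j x y d) (hdY : ¬ Y d) :
    Ne e Y d := ⟨hdY, fun w hw => h.se _ _ (hY x w d hx hw hdY (h.se _ _ (nn_adj hd).1))⟩

/-! ### Paths -/

/-- `u` and `t` are joined by at most `n` steps of `f` inside `S`. -/
def Pt (f : V → V → Prop) (S : V → Prop) (t : V) : ℕ → V → Prop
  | 0, u => u = t
  | n + 1, u => u = t ∨ ∃ w, S w ∧ f u w ∧ Pt f S t n w

/-- There is a short path of the complement between `x` and `y`. -/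
def Gd (e f : V → V → Prop) (m J L : ℕ) (x y : V) : Prop :=
  Stab e m J x y ∧ Pt f (Sq e (Nn e m J x y) m x y) y L x

theorem pt_closed {S : V → Prop} {t : V} (X : V → Prop)
    (hX : ∀ u w, X u → S u → S w → f u w → X w) : ∀ n u, S u → X u → Pt f S t n u → X t := by
  intro n
  induction n with
  | zero =>
    rintro u _ hu rfl
    exact hu
  | succ n ih =>
    rintro u hSu hu (rfl | ⟨w, g1, g2, g3⟩)
    · exact hu
    · exact ih w g1 (hX u w hu hSu g1 g2) g3

theorem pt_self {S : V → Prop} {t : V} (n : ℕ) : Pt f S t n t := by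
  cases n with
  | zero => exact rfl
  | succ n => exact Or.inl rfl

theorem pt_mono1 {S : V → Prop} {t : V} : ∀ n u, Pt f S t n u → Pt f S t (n + 1) u := by
  intro n
  induction n with
  | zero => exact fun u g => Or.inl g
  | succ n ih =>
    rintro u (g | ⟨w, g1, g2, g3⟩)
    · exact Or.inl g
    · exact Or.inr ⟨w, g1, g2, ih w g3⟩

theorem pt_mono {S : V → Prop} {t u : V} (hnk : n ≤ k) (hp : Pt f S t n u) : Pt f S t k u := by
  induction hnk with
  | refl => exact hp
  | step _ ih => exact pt_mono1 _ _ ih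

theorem gd_max (h : Cmp e f) {L : ℕ} (hg : Gd e f m J L x y) : IsMax e m (Nn e m J x y) x y :=
  is_max h.se h.ie hg.1

theorem gd_proper {L : ℕ} (hg : Gd e f m J L x y) (X : V → Prop) (hx : X x)
    (hX : ∀ u w, X u → Sq e (Nn e m J x y) m x y u → Sq e (Nn e m J x y) m x y w → f u w → X w) :
    X y := pt_closed X hX L x sq_x hx hg.2

/-- Sets of the same kind are nested or disjoint. -/
theorem te_laminar (h : Cmp e f) {L : ℕ} (hm : 2 ≤ m) (hg : Gd e f m J L x y)
    (h1 : Te e m J x y z) (h2 : Te e m J u v z) :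
    (∀ w, Te e m J x y w → Te e m J u v w) ∨ ∀ w, Te e m J u v w → Te e m J x y w := by
  rcases comparable h hm (gd_max h hg) (gd_proper hg) h1 h2 with g | g
  · exact Or.inr fun w hw => form_anti g h.se h1 h2 hw
  · exact Or.inl fun w hw => form_anti g h.se h2 h1 hw

end Z

end P1346e8
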