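import Pool.Agent.Lib.P1346Z.Prime

/-!
# Short paths of the complement; pairs in prime modules whose complement is biclique-free
-/

set_option autoImplicit false

namespace P1346e8

namespace Z

open Q

variable {V : Type} {e f : V → V → Prop} {N K Y : V → Prop} {m n j k J t L : ℕ}
  {x y u v w z c d : V}

theorem blk_adj_f (h : Cmp e f) (hKe : Conn e K) (hKf : Conn f K) {b u z : V} (hb : K b)
    (hu : K u) (hbu : SB e K b u) (hz : ¬ SB e K b z) : f b z ↔ f u z :=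
  blk_adj h.symm hKf hKe hb hu (sb_cmp h hbu) (fun g => hz (sb_cmp h.symm g))

theorem pt_blk (h : Cmp e f) (hKe : Conn e K) (hKf : Conn f K) {S : V → Prop}
    (hS : ∀ c, S c → K c) : ∀ m v, K v → ¬ SB e K y v →
      (∃ c, S c ∧ SB e K c v ∧ Pt f S y m c) → Pt f S y m v := by
  intro m
  induction m with
  | zero =>
    rintro v hv hyv ⟨c, _, h2, h3⟩
    change c = y at h3
    subst h3
    exact absurd h2 hyv
  | succ m ih =>
    rintro v hv hyv ⟨c, h1, h2, h3⟩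
    rcases h3 with h3 | ⟨w, g1, g2, g3⟩
    · subst h3
      exact absurd h2 hyv
    · by_cases hcw : SB e K c w
      · exact pt_mono1 _ _ (ih v hv hyv ⟨w, g1, sb_trans h hKe hKf (sb_symm hcw) h2, g3⟩)
      · exact Or.inr ⟨w, g1, (blk_adj_f h hKe hKf (hS c h1) hv h2 hcw).1 g2, g3⟩

/-- A path of the complement inside `S` can be shortened. -/
theorem pt_short (h : Cmp e f) (hl : Lb t e K) (hKe : Conn e K) (hKf : Conn f K) {S : V → Prop}
    (hS : ∀ c, S c → K c) (hx : S x) (hy : S y) (hxy : ¬ SB e K x y) (hL : 2 * t ≤ L)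
    (hM' : ∃ n, Pt f S y n x) : Pt f S y L x := by
  classical
  obtain ⟨M', hM'⟩ := hM'
  have hyx : ¬ SB e K y x := fun g => hxy (sb_symm g)
  let D : ℕ → V → Prop := fun j v => S v ∧ ∃ c, S c ∧ SB e K c v ∧ Pt f S y j c
  have hex : ∃ M, D M x := ⟨M', hx, x, hx, Or.inl rfl, hM'⟩
  have hM := Nat.find_spec hex
  have hmin : ∀ m, m < Nat.find hex → ¬ D m x := fun m hm => Nat.find_min hex hm
  generalize Nat.find hex = M at hM hmin
  by_cases hLM : M ≤ L
  · exact pt_mono hLM (pt_blk h hKe hKf hS M x (hS x hx) hyx hM.2)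
  exfalso
  let g : V → V → Prop := fun v u => S v ∧ f v u
  have hstep : ∀ n v u, g v u → D n u → D (n + 1) v := by
    rintro n v u ⟨g1, g2⟩ ⟨g3, c, g4, g5, g6⟩
    refine ⟨g1, ?_⟩
    by_cases hcv : SB e K c v
    · exact ⟨c, g4, hcv, pt_mono1 _ _ g6⟩
    · have hcv' : f c v := (blk_adj_f h hKe hKf (hS c g4) (hS u g3) g5 hcv).2 (h.sf _ _ g2)
      exact ⟨v, g1, Or.inl rfl, Or.inr ⟨c, g4, h.sf _ _ hcv', g6⟩⟩
  have hinv : ∀ n v, n < M → D (n + 1) v → ¬ D n v → ∃ u, g v u ∧ D n u := by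
    rintro n v _ ⟨g1, c, g2, g3, g4⟩ hnD
    rcases g4 with g4 | ⟨w, k1, k2, k3⟩
    · subst g4
      exact absurd ⟨g1, c, g2, g3, pt_self n⟩ hnD
    · have hcw : ¬ SB e K c w := fun g' =>
        hnD ⟨g1, w, k1, sb_trans h hKe hKf (sb_symm g') g3, k3⟩
      exact ⟨w, ⟨g1, (blk_adj_f h hKe hKf (hS c g2) (hS v g1) g3 hcw).1 k2⟩, k1, w, k1,
        Or.inl rfl, k3⟩
  obtain ⟨p, p1, p2, p3⟩ := P1346e8.K.layers hstep hinv M le_rfl x hM hmin
  have hpK : ∀ i, i ≤ M → K (p i) := fun i hi => hS _ (p2 i hi).1.1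
  have hsb : ∀ i j, i < j → j ≤ M → ¬ SB e K (p i) (p j) := by
    intro i j hij hj hs
    obtain ⟨⟨_, c, g2, g3, g4⟩, _⟩ := p2 i (by omega)
    exact (p2 j hj).2 i hij ⟨(p2 j hj).1.1, c, g2, sb_trans h hKe hKf g3 hs, g4⟩
  refine anti_K hl p (fun i hi => hpK i (by omega)) (fun i j hij hj => hsb i j hij (by omega)) ?_
  intro i j hij hj
  have hne : p i ≠ p j := fun g' => hsb i j (by omega) (by omega) (Or.inl g')
  rw [h.ef _ _ hne]
  intro hf
  exact (p2 j (by omega)).2 (i + 1) hij (hstep i (p j) (p i)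
    ⟨(p2 j (by omega)).1.1, h.sf _ _ hf⟩ (p2 i (by omega)).1)

/-- Pairs in different blocks of a prime module with biclique-free quotient. -/
theorem gd_prime (h : Cmp e f) (hl : Lb t e K) (hK : Q.Mod e K) (hKe : Conn e K)
    (hKf : Conn f K) (hm : 2 ≤ m) (hx : K x) (hy : K y) (hxy : ¬ SB e K x y)
    (hJ : 8 * t + 2 ≤ J) (hL : 2 * t ≤ L) : Gd e f m J L x y := by
  have hS := stab_prime h hl hK hKe hKf hm hx hy hxy hJ
  exact ⟨hS, pt_short h hl hKe hKf (fun c hc => sq_mod h hK hx hy hc) sq_x sq_y hxy hL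
    (pt_ex h hK hKf hm hx hy hxy hS)⟩

theorem fm_inv (h : Cmp e f) (hK : Q.Mod e K) (hKe : Conn e K) (hKf : Conn f K)
    (hNb : ∀ d c, N d → K d → K c → SB e K d c → N c)
    {c v : V} (hc : K c) (hv : K v) (hcv : SB e K c v) (hF : Fm e N c) : Fm e N v := by
  refine ⟨fun g => hF.1 (hNb v c g hv hc (sb_symm hcv)), fun n hn => ?_⟩
  have hcn := hF.2 n hn
  by_cases hnK : K n
  · have hcn' : ¬ SB e K c n := fun g => hF.1 (hNb n c hn hnK hc (sb_symm g))
    exact (blk_adj h hKe hKf hc hv hcv hcn').1 hcn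
  · exact hK c v n hc hv hnK hcn

theorem lv_inv (h : Cmp e f) (hK : Q.Mod e K) (hKe : Conn e K) (hKf : Conn f K)
    (hNe : ∀ d, Ne e K d → N d) (hNb : ∀ d c, N d → K d → K c → SB e K d c → N c) :
    ∀ n c v, K c → K v → SB e K c v → Lv e N n c → Lv e N n v := by
  intro n
  induction n with
  | zero =>
    rintro c v hc hv hcv ⟨g1, g2⟩
    exact ⟨fun g => g1 (hNb v c g hv hc (sb_symm hcv)),
      fun g => g2 (fm_inv h hK hKe hKf hNb hv hc (sb_symm hcv) g)⟩
  | succ n ih =>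
    rintro c v hc hv hcv (g | ⟨u, g1, g2, g3⟩)
    · exact Or.inl (ih c v hc hv hcv g)
    · by_cases hu : K u
      · by_cases hcu : SB e K c u
        · exact Or.inl (ih u v hu hv (sb_trans h hKe hKf (sb_symm hcu) hcv) g3)
        · exact Or.inr ⟨u, (blk_adj h hKe hKf hc hv hcv hcu).1 g1, g2, g3⟩
      · exact absurd (hNe u ⟨hu, fun w hw => h.se _ _ (hK c w u hc hw hu g1)⟩) g2

/-- If the complement has a biclique-free quotient, there are no dominators in the module. -/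
theorem no_nn (h : Cmp e f) (hl : Lb t f K) (hK : Q.Mod e K) (hKe : Conn e K)
    (hKf : Conn f K) (hm : 2 ≤ m) (hmt : 2 * t ≤ m + 1) (hx : K x) (hy : K y)
    (hxy : ¬ SB e K x y) (hS : Stab e m J x y) (hd : Nn e m J x y d) : ¬ K d := by
  intro hdK
  have hTK : ∀ z, Te e m J x y z → K z := fun z hz => te_sub h hK hx hy hd hdK hz
  have hmax := is_max h.se h.ie hS
  have hdT : ¬ Te e m J x y d := fun g => (form_iff.1 g).1 hd
  have hnM : ¬ Q.Mod e (Te e m J x y) := fun g =>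
    hdT (sub_of_mod hK hx hy hxy g hmax.1 hmax.2.1 hdK)
  unfold Q.Mod at hnM
  push Not at hnM
  obtain ⟨u1, u2, z, k1, k2, hz, e1, e2⟩ := hnM
  have hNe : ∀ d, Ne e K d → Nn e m J x y d := fun d hd => ne_nn h hK hx hy hd
  have hNb : ∀ d c, Nn e m J x y d → K d → K c → SB e K d c → Nn e m J x y c :=
    fun d c g1 g2 g3 g4 => st_blk h hK hKe hKf hm hx hy hxy hS g1 g2 g3 g4
  have hzN : ¬ Nn e m J x y z := fun g => e2 ((form_iff.1 k2).2 u2 (pn_self m u2) z g)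
  have hLz : Lv e (Nn e m J x y) m z := by
    by_contra g
    refine hz ⟨?_, g⟩
    by_contra g'
    exact g (lv_mono (Nat.zero_le m) ⟨hzN, g'⟩)
  have hLu : Lv e (Nn e m J x y) (m + 1) u1 := Or.inr ⟨z, e1, hzN, hLz⟩
  set N : V → Prop := Nn e m J x y with hNdef
  let D : ℕ → V → Prop := fun j v => K v ∧ Lv e N j v
  let g : V → V → Prop := fun v u => e v u ∧ ¬ N u ∧ K v
  have hstep : ∀ n v u, g v u → D n u → D (n + 1) v := by
    rintro n v u ⟨g1, g2, g3⟩ ⟨_, g5⟩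
    exact ⟨g3, Or.inr ⟨u, g1, g2, g5⟩⟩
  have hinv : ∀ n v, n < m + 1 → D (n + 1) v → ¬ D n v → ∃ u, g v u ∧ D n u := by
    rintro n v _ ⟨hv, g1⟩ g2
    rcases g1 with g1 | ⟨u, g3, g4, g5⟩
    · exact absurd ⟨hv, g1⟩ g2
    · refine ⟨u, ⟨g3, g4, hv⟩, ?_, g5⟩
      by_contra hu
      exact g4 (hNe u ⟨hu, fun w hw => h.se _ _ (hK v w u hv hw hu g3)⟩)
  obtain ⟨p, p1, p2, p3⟩ := P1346e8.K.layers hstep hinv (m + 1) le_rfl u1 ⟨hTK u1 k1, hLu⟩
    (fun m' hm' g' => k1.2 (lv_mono (by omega) g'.2))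
  refine anti_K hl p (fun i hi => (p2 i (by omega)).1.1) ?_ ?_
  · intro i j hij hj hs
    have h1 := lv_inv h hK hKe hKf hNe hNb i (p i) (p j)
      (p2 i (by omega)).1.1 (p2 j (by omega)).1.1 (sb_cmp h.symm hs) (p2 i (by omega)).1.2
    exact (p2 j (by omega)).2 i hij ⟨(p2 j (by omega)).1.1, h1⟩
  · intro i j hij hj
    have hne : p i ≠ p j := by
      intro g'
      have := (p2 j (by omega)).2 i (by omega)
      rw [← g'] at this
      exact this (p2 i (by omega)).1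
    rw [h.symm.ef _ _ hne]
    intro he
    exact (p2 j (by omega)).2 (i + 1) (by omega)
      (hstep i (p j) (p i) ⟨h.se _ _ he, (p3 i (by omega)).2.1, (p2 j (by omega)).1.1⟩
        (p2 i (by omega)).1)

end Z

end P1346e8
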