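import Pool.Agent.Lib.P1346Z.Iter
import Pool.Agent.Lib.P1346K.Lay

/-!
# Pairs in different blocks of a prime module
-/

set_option autoImplicit false

namespace P1346e8

namespace Z

open Q

variable {V : Type} {e f : V → V → Prop} {N K Y : V → Prop} {m n j k J t : ℕ}
  {x y u v w z c d : V}

theorem nn_comm (j : ℕ) : Nn e m j x y = Nn e m j y x := by
  induction j with
  | zero =>
    funext d
    exact propext ⟨fun g => ⟨g.2, g.1⟩, fun g => ⟨g.2, g.1⟩⟩
  | succ j ih =>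
    funext d
    change (∀ c, Sq e (Nn e m j x y) m x y c → e d c) = ∀ c, Sq e (Nn e m j y x) m y x c → e d c
    rw [ih]
    exact propext ⟨fun g c hc => g c hc.symm, fun g c hc => g c hc.symm⟩

/-- The dominators in other blocks. -/
def Ou (e : V → V → Prop) (m : ℕ) (K : V → Prop) (j : ℕ) (x y d : V) : Prop :=
  K d ∧ ¬ SB e K x d ∧ ¬ SB e K y d ∧ Nn e m j x y d

theorem ou_blk (h : Cmp e f) (hK : Q.Mod e K) (hKe : Conn e K) (hKf : Conn f K) (hx : K x)
    (hy : K y) : ∀ j d d', Ou e m K j x y d → K d' → SB e K d d' → Ou e m K j x y d' := by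
  intro j
  induction j with
  | zero =>
    rintro d d' ⟨h1, h2, h3, h4⟩ hd' hs
    have hx' : ¬ SB e K x d' := fun g => h2 (sb_trans h hKe hKf g (sb_symm hs))
    have hy' : ¬ SB e K y d' := fun g => h3 (sb_trans h hKe hKf g (sb_symm hs))
    exact ⟨hd', hx', hy', (blk_adj h hKe hKf h1 hd' hs (fun g => h2 (sb_symm g))).1 h4.1,
      (blk_adj h hKe hKf h1 hd' hs (fun g => h3 (sb_symm g))).1 h4.2⟩
  | succ j ih =>
    rintro d d' ⟨h1, h2, h3, h4⟩ hd' hs
    have hx' : ¬ SB e K x d' := fun g => h2 (sb_trans h hKe hKf g (sb_symm hs))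
    have hy' : ¬ SB e K y d' := fun g => h3 (sb_trans h hKe hKf g (sb_symm hs))
    refine ⟨hd', hx', hy', fun c hc => ?_⟩
    have hcK : K c := sq_mod h hK hx hy hc
    have hcd : ¬ SB e K d c := by
      intro g
      exact sq_out h.ie hc (ih d c ⟨h1, h2, h3, nn_sub _ _ h4⟩ hcK g).2.2.2
    exact (blk_adj h hKe hKf h1 hd' hs hcd).1 (h4 c hc)

/-- No change outside the two blocks: no dominators in the two blocks. -/
theorem blk_no (h : Cmp e f) (hK : Q.Mod e K) (hKe : Conn e K) (hKf : Conn f K) (hm : 2 ≤ m)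
    (hx : K x) (hy : K y) (hxy : ¬ SB e K x y)
    (hc : ∀ d, Ou e m K j x y d → Nn e m (j + 1) x y d) (hd : Nn e m (j + 1) x y d) (hdK : K d) :
    ¬ SB e K x d := by
  intro hdx
  have A1 : ∀ c, Sq e (Nn e m j x y) m x y c → ¬ SB e K x c → e x c := by
    intro c hc hxc
    have hdc : ¬ SB e K d c := fun g => hxc (sb_trans h hKe hKf hdx g)
    exact (blk_adj h hKe hKf hdK hx (sb_symm hdx) hdc).1 (hd c hc)
  have hZ : Q.Mod e (fun z => K z ∧ (SB e K x z ∨ SB e K y z ∨ Sq e (Nn e m j x y) m x y z)) := by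
    rintro u v w ⟨hu, hu'⟩ ⟨hv, hv'⟩ hw huw
    by_cases hwK : K w
    swap
    · exact hK u v w hu hv hwK huw
    have w1 : ¬ SB e K x w := fun g => hw ⟨hwK, Or.inl g⟩
    have w2 : ¬ SB e K y w := fun g => hw ⟨hwK, Or.inr (Or.inl g)⟩
    have w3 : ¬ Sq e (Nn e m j x y) m x y w := fun g => hw ⟨hwK, Or.inr (Or.inr g)⟩
    by_cases hN : Nn e m j x y w
    · have h1 := hc w ⟨hwK, w1, w2, hN⟩
      rcases hv' with g | g | g
      · exact (blk_adj h hKe hKf hx hv g w1).1 (h.se _ _ (h1 x sq_x))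
      · exact (blk_adj h hKe hKf hy hv g w2).1 (h.se _ _ (h1 y sq_y))
      · exact h.se _ _ (h1 v g)
    · exfalso
      by_cases g1 : SB e K x u
      · exact w3 (Or.inl (pn_step ((blk_adj h hKe hKf hx hu g1 w1).2 huw) hN (by omega)))
      by_cases g2 : SB e K y u
      · exact w3 (Or.inr (pn_step ((blk_adj h hKe hKf hy hu g2 w2).2 huw) hN (by omega)))
      have g3 := (hu'.resolve_left g1).resolve_left g2
      exact w3 (Or.inl (pn_step2 (A1 u g3 g1) (sq_out h.ie g3) huw hN hm))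
  have hall : ∀ z, K z → ¬ SB e K x z → e x z := by
    intro z hz hxz
    obtain ⟨_, g⟩ := sub_of_mod hK hx hy hxy hZ ⟨hx, Or.inl (Or.inl rfl)⟩
      ⟨hy, Or.inr (Or.inl (Or.inl rfl))⟩ hz
    rcases g with g | g | g
    · exact absurd g hxz
    · exact h.se _ _ ((blk_adj h hKe hKf hy hz g (fun g' => hxy (sb_symm g'))).1
        (h.se _ _ (A1 y sq_y hxy)))
    · exact A1 z g hxz
  obtain ⟨a, b, ha, hA, hb, hB, hab⟩ := conn_cut hKf (fun z => SB e K x z) hx hy (Or.inl rfl) hxy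
  exact (h.ef a b (h.ne_f hab)).1 ((blk_adj h hKe hKf hx ha hA hB).1 (hall b hb hB)) hab

theorem blk_no2 (h : Cmp e f) (hK : Q.Mod e K) (hKe : Conn e K) (hKf : Conn f K) (hm : 2 ≤ m)
    (hx : K x) (hy : K y) (hxy : ¬ SB e K x y)
    (hc : ∀ d, Ou e m K j x y d → Nn e m (j + 1) x y d) (hd : Nn e m (j + 1) x y d) (hdK : K d) :
    ¬ SB e K x d ∧ ¬ SB e K y d := by
  refine ⟨blk_no h hK hKe hKf hm hx hy hxy hc hd hdK, ?_⟩
  refine blk_no h hK hKe hKf hm hy hx (fun g => hxy (sb_symm g)) (j := j) ?_ ?_ hdK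
  · rintro d ⟨h1, h2, h3, h4⟩
    rw [nn_comm]
    rw [nn_comm] at h4
    exact hc d ⟨h1, h3, h2, h4⟩
  · rw [nn_comm]
    exact hd

theorem stab_step (h : Cmp e f) (hK : Q.Mod e K) (hKe : Conn e K) (hKf : Conn f K) (hm : 2 ≤ m)
    (hx : K x) (hy : K y) (hxy : ¬ SB e K x y)
    (hc : ∀ d, Ou e m K j x y d → Nn e m (j + 1) x y d) (hjk : j + 1 ≤ k)
    (hc' : ∀ d, Ou e m K k x y d → Nn e m (k + 1) x y d) : Stab e m k x y := by
  intro d hd
  by_cases hdK : K d
  · obtain ⟨g1, g2⟩ := blk_no2 h hK hKe hKf hm hx hy hxy hc (nn_mono hjk hd) hdK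
    exact hc' d ⟨hdK, g1, g2, hd⟩
  · exact ne_nn h hK hx hy (nn_out h hK hx hd hdK)

/-- A change of the dominators in other blocks. -/
theorem out_r (h : Cmp e f) (hK : Q.Mod e K) (hKe : Conn e K) (hKf : Conn f K)
    (hx : K x) (hy : K y) (hd : Ou e m K (j + 1) x y d) (hd' : ¬ Nn e m (j + 1 + 1) x y d) :
    ∃ r, Ou e m K j x y r ∧ Sq e (Nn e m (j + 1) x y) m x y r := by
  by_contra hno
  have key : ∀ n, n ≤ m → ∀ c, (Pn e (Nn e m (j + 1) x y) n x c ∨
      Pn e (Nn e m (j + 1) x y) n y c) → K c → ¬ SB e K x c → ¬ SB e K y c →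
      Pn e (Nn e m j x y) n x c ∨ Pn e (Nn e m j x y) n y c := by
    intro n
    induction n with
    | zero =>
      rintro _ c (g | g) hc h1 h2
      · exact absurd (Or.inl g) h1
      · exact absurd (Or.inl g) h2
    | succ n ih =>
      intro hn c hc hcK h1 h2
      have hcN : ¬ Nn e m j x y c := by
        intro g
        refine hno ⟨c, ⟨hcK, h1, h2, g⟩, ?_⟩
        rcases hc with g' | g'
        · exact Or.inl (pn_mono hn g')
        · exact Or.inr (pn_mono hn g')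
      obtain ⟨u, hu, huK, huc⟩ : ∃ u, (Pn e (Nn e m (j + 1) x y) n x u ∨
          Pn e (Nn e m (j + 1) x y) n y u) ∧ K u ∧ e u c := by
        rcases hc with g | g
        · rcases pn_last n x g with g' | ⟨u, g1, g2, g3⟩
          · exact absurd (Or.inl g') h1
          · exact ⟨u, Or.inl g1, pn_mod h hK (fun d hd => ne_nn h hK hx hy hd) n x hx g1, g2⟩
        · rcases pn_last n y g with g' | ⟨u, g1, g2, g3⟩
          · exact absurd (Or.inl g') h2
          · exact ⟨u, Or.inr g1, pn_mod h hK (fun d hd => ne_nn h hK hx hy hd) n y hy g1, g2⟩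
      by_cases s1 : SB e K x u
      · exact Or.inl (pn_step ((blk_adj h hKe hKf hx huK s1 h1).2 huc) hcN (by omega))
      by_cases s2 : SB e K y u
      · exact Or.inr (pn_step ((blk_adj h hKe hKf hy huK s2 h2).2 huc) hcN (by omega))
      rcases ih (by omega) u hu huK s1 s2 with g | g
      · exact Or.inl (pn_snoc huc hcN n x g)
      · exact Or.inr (pn_snoc huc hcN n y g)
  change ¬ ∀ c, Sq e (Nn e m (j + 1) x y) m x y c → e d c at hd'
  push Not at hd'
  obtain ⟨c, hc, hdc⟩ := hd'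
  obtain ⟨h1, h2, h3, h4⟩ := hd
  have hcK : K c := sq_mod h hK hx hy hc
  have hadj := nn_adj h4
  have c1 : ¬ SB e K x c := fun g => hdc (h.se _ _
    ((blk_adj h hKe hKf hx hcK g h2).1 (h.se _ _ hadj.1)))
  have c2 : ¬ SB e K y c := fun g => hdc (h.se _ _
    ((blk_adj h hKe hKf hy hcK g h3).1 (h.se _ _ hadj.2)))
  exact hdc (h4 c (key m le_rfl c hc hcK c1 c2))

/-- No long run of changes. -/
theorem no_run (h : Cmp e f) (hl : Lb t e K) (hK : Q.Mod e K) (hKe : Conn e K) (hKf : Conn f K)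
    (hx : K x) (hy : K y) (a : ℕ) : ∃ i, i ≤ 4 * t ∧
      ∀ d, Ou e m K (a + 1 + i) x y d → Nn e m (a + 1 + i + 1) x y d := by
  by_contra hn
  push Not at hn
  have hr : ∀ i, ∃ r, i ≤ 4 * t → Ou e m K (a + i) x y r ∧
      Sq e (Nn e m (a + i + 1) x y) m x y r := by
    intro i
    by_cases hi : i ≤ 4 * t
    · obtain ⟨d, h1, h2⟩ := hn i hi
      have e1 : a + 1 + i = a + i + 1 := by omega
      rw [e1] at h1 h2
      obtain ⟨r, g⟩ := out_r h hK hKe hKf hx hy h1 h2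
      exact ⟨r, fun _ => g⟩
    · exact ⟨x, fun g => absurd g hi⟩
  choose r hr using hr
  refine anti_K hl (fun i => r (2 * i)) ?_ ?_ ?_
  · intro i hi
    exact (hr (2 * i) (by omega)).1.1
  · intro i i' hii hi' hs
    have h1 := (hr (2 * i') (by omega)).1
    have h2 := hr (2 * i) (by omega)
    have h3 := ou_blk h hK hKe hKf hx hy _ _ _ h1 h2.1.1 (sb_symm hs)
    exact sq_out h.ie h2.2 (nn_mono (by omega) h3.2.2.2)
  · intro i i' hii hi'
    have h1 := (hr (2 * i') (by omega)).1.2.2.2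
    have h2 := (hr (2 * i) (by omega)).2
    have h3 : Nn e m (a + 2 * i + 1 + 1) x y (r (2 * i')) := nn_mono (by omega) h1
    exact h.se _ _ (h3 _ h2)

/-- The iteration is stable. -/
theorem stab_prime (h : Cmp e f) (hl : Lb t e K) (hK : Q.Mod e K) (hKe : Conn e K)
    (hKf : Conn f K) (hm : 2 ≤ m) (hx : K x) (hy : K y) (hxy : ¬ SB e K x y)
    (hJ : 8 * t + 2 ≤ J) : Stab e m J x y := by
  obtain ⟨i, hi, h1⟩ := no_run (m := m) h hl hK hKe hKf hx hy 0
  obtain ⟨i', hi', h2⟩ := no_run (m := m) h hl hK hKe hKf hx hy (0 + 1 + i)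
  exact (stab_mono (stab_step h hK hKe hKf hm hx hy hxy h1 (by omega) h2) (by omega)).1

section stable

theorem st_no (h : Cmp e f) (hK : Q.Mod e K) (hKe : Conn e K) (hKf : Conn f K) (hm : 2 ≤ m)
    (hx : K x) (hy : K y) (hxy : ¬ SB e K x y) (hS : Stab e m J x y) (hd : Nn e m J x y d)
    (hdK : K d) : ¬ SB e K x d ∧ ¬ SB e K y d :=
  blk_no2 h hK hKe hKf hm hx hy hxy (fun d hd => hS d hd.2.2.2) (hS d hd) hdK

theorem st_blk (h : Cmp e f) (hK : Q.Mod e K) (hKe : Conn e K) (hKf : Conn f K) (hm : 2 ≤ m)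
    (hx : K x) (hy : K y) (hxy : ¬ SB e K x y) (hS : Stab e m J x y) (hd : Nn e m J x y d)
    (hdK : K d) (hc : K c) (hdc : SB e K d c) : Nn e m J x y c := by
  obtain ⟨g1, g2⟩ := st_no h hK hKe hKf hm hx hy hxy hS hd hdK
  exact (ou_blk h hK hKe hKf hx hy J d c ⟨hdK, g1, g2, hd⟩ hc hdc).2.2.2

theorem te_sub (h : Cmp e f) (hK : Q.Mod e K) (hx : K x) (hy : K y)
    (hd : Nn e m J x y d) (hdK : K d) (hz : Te e m J x y z) : K z := by
  by_contra hn
  have h1 := form_iff.1 hz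
  have h2 := h1.2 z (pn_self m z) d hd
  exact h1.1 (ne_nn h hK hx hy ⟨hn, fun w hw => h.se _ _ (hK d w z hdK hw hn (h.se _ _ h2))⟩)

theorem te_blk (h : Cmp e f) (hK : Q.Mod e K) (hKe : Conn e K) (hKf : Conn f K) (hm : 2 ≤ m)
    (hx : K x) (hy : K y) (hxy : ¬ SB e K x y) (hS : Stab e m J x y) (hz : Te e m J x y z)
    (hzK : K z) (hw : K w) (hzw : SB e K z w) : Te e m J x y w := by
  refine form_mod h.se (sb_mod h hKe hKf z) ?_ ⟨hzK, Or.inl rfl⟩ hz ⟨hw, hzw⟩
  rintro d hd ⟨g1, g2⟩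
  exact (form_iff.1 hz).1 (st_blk h hK hKe hKf hm hx hy hxy hS hd g1 hzK (sb_symm g2))

theorem nn_eq (h : Cmp e f) (hK : Q.Mod e K) (hx : K x) (hy : K y)
    (hN : ∀ d, K d → ¬ Nn e m J x y d) : Nn e m J x y = Ne e K := by
  funext d
  exact propext ⟨fun g => nn_out h hK hx g (fun g' => hN d g' g), fun g => ne_nn h hK hx hy g⟩

/-- There is a path of the complement. -/
theorem pt_ex (h : Cmp e f) (hK : Q.Mod e K) (hKf : Conn f K) (hm : 2 ≤ m)
    (hx : K x) (hy : K y) (hxy : ¬ SB e K x y) (hS : Stab e m J x y) :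
    ∃ n, Pt f (Sq e (Nn e m J x y) m x y) y n x := by
  by_contra hn
  push Not at hn
  have hxy' : x ≠ y := fun g => hxy (Or.inl g)
  have h1 : ∀ c, Sq e (Nn e m J x y) m x y c → c = x ∨ c = y ∨ e x c ∨ e y c := by
    intro c hc
    by_contra g
    push Not at g
    obtain ⟨g1, g2, g3, g4⟩ := g
    refine hn 2 (Or.inr ⟨c, hc, (h.symm.ef x c g1.symm).2 g3, Or.inr ⟨y, sq_y, ?_, rfl⟩⟩)
    exact h.sf _ _ ((h.symm.ef y c g2.symm).2 g4)
  have hM : Q.Mod e (Sq e (Nn e m J x y) m x y) := by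
    intro u v w hu hv hw huw
    by_cases hN : Nn e m J x y w
    · exact h.se _ _ (hS w hN v hv)
    · exfalso
      rcases h1 u hu with rfl | rfl | g | g
      · exact hw (Or.inl (pn_step huw hN (by omega)))
      · exact hw (Or.inr (pn_step huw hN (by omega)))
      · exact hw (Or.inl (pn_step2 g (sq_out h.ie hu) huw hN hm))
      · exact hw (Or.inr (pn_step2 g (sq_out h.ie hu) huw hN hm))
  have hall : ∀ z, K z → Sq e (Nn e m J x y) m x y z := fun z hz =>
    sub_of_mod hK hx hy hxy hM sq_x sq_y hz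
  obtain ⟨a, b, ha, ⟨n, hA⟩, hb, hB, hab⟩ := conn_cut hKf
    (fun z => ∃ n, Pt f (Sq e (Nn e m J x y) m x y) y n z) hy hx ⟨0, rfl⟩ (fun ⟨n, g⟩ => hn n g)
  exact hB ⟨n + 1, Or.inr ⟨a, hall a ha, h.sf _ _ hab, hA⟩⟩

end stable

end Z

end P1346e8
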