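import Pool.Agent.Lib.P1346Z.PathZ
import Pool.Agent.Lib.P1346K.Form
import Pool.Agent.Lib.P1346K.Blk

/-!
# The modular decomposition and the sets of pairs
-/

set_option autoImplicit false

namespace P1346e8

namespace Z

open Q

open P1346e8.K (Nest Sp lv_path ne_blk Wm wm_mod wm_succ bm_s bm_p bm_b bc_eq_cp)

variable {V : Type} {e f : V → V → Prop} {N K Y P F F1 F2 : V → Prop} {m n i j k J t L : ℕ}
  {x y u v w z c d : V} {W : ℕ → V → V → Prop}

theorem cp_ne (hs : ∀ u v, e u v → e v u) (hc : ¬ Conn e K) (x : V) :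
    ∃ z, K z ∧ ¬ Cp e K x z := by
  unfold Conn at hc
  push Not at hc
  obtain ⟨u, v, hu, hv, huv⟩ := hc
  by_cases h1 : Cp e K x u
  · exact ⟨v, hv, fun g => huv ((h1.symm hs).trans g)⟩
  · exact ⟨u, hu, h1⟩

/-- A block has an outside neighbour in the module. -/
theorem nb_ex (h : Cmp e f) (hKe : Conn e K) (hKf : Conn f K) (hx : K x)
    (hk : ∃ k, K k ∧ ¬ SB e K x k) : ∃ b, K b ∧ Ne e (fun y => K y ∧ SB e K x y) b := by
  obtain ⟨k, hk1, hk2⟩ := hk
  obtain ⟨a, b0, ha, hA, hb0, hB0, hab⟩ := conn_cut hKe (fun y => K y ∧ SB e K x y) hx hk1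
    ⟨hx, Or.inl rfl⟩ (fun g => hk2 g.2)
  exact ⟨b0, hb0, hB0, fun w hw => h.se _ _ (sb_mod h hKe hKf x a w b0 hA hw hB0 hab)⟩

theorem form_K (h : Cmp e f) (hK : Q.Mod e K) {b z : V} (hb : K b)
    (hN : Ne e (fun y => K y ∧ SB e K x y) b)
    (hz : Fm e (Ne e (fun y => K y ∧ SB e K x y)) z) : K z := by
  by_contra g
  refine hz.1 ⟨fun g' => g g'.1, fun w hw => ?_⟩
  exact h.se _ _ (hK b w z hb hw.1 g (h.se _ _ (hz.2 b hN)))

/-- Blocks are described by their neighbours if the complement has a biclique-free quotient. -/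
theorem ds_anti (h : Cmp e f) (hl : Lb t f K) (hK : Q.Mod e K) (hKe : Conn e K) (hKf : Conn f K)
    (hx : K x) (hk : ∃ k, K k ∧ ¬ SB e K x k) (hm : 2 * t ≤ m) :
    Ds e m (fun y => K y ∧ SB e K x y) := by
  intro z
  constructor
  swap
  · exact fun hz => form_in h (sb_mod h hKe hKf x) hz m
  rintro ⟨hF, hLv⟩
  by_contra hn
  obtain ⟨b, hb, hNb⟩ := nb_ex h hKe hKf hx hk
  have hzK := form_K h hK hb hNb hF
  obtain ⟨p, p1, p2, p3, p4⟩ := lv_path h hK hKe hKf hx hNb hb hzK (fun g => hn ⟨hzK, g⟩) hF hLv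
  refine anti_K hl p (fun i hi => (p1 i (by omega)).1) ?_ ?_
  · intro i j hij hj g
    exact p2 i j hij (by omega) (sb_cmp h.symm g)
  · intro i j hij hj
    have hne : p i ≠ p j := fun g => p2 i j (by omega) (by omega) (Or.inl g)
    exact h.sf _ _ ((h.symm.ef (p j) (p i) hne.symm).2 (p4 i j hij (by omega)))

/-- Blocks with many neighbours are described by their neighbours. -/
theorem ds_many (h : Cmp e f) (hl : Lb t e K) (hK : Q.Mod e K) (hKe : Conn e K) (hKf : Conn f K)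
    (hx : K x) (hk : ∃ k, K k ∧ ¬ SB e K x k) (hm : t ≤ m) (B : Finset V) (hBt : t ≤ B.card)
    (hBI : Ind e K B) (hB : ∀ b ∈ B, K b ∧ Ne e (fun y => K y ∧ SB e K x y) b) :
    Ds e m (fun y => K y ∧ SB e K x y) := by
  classical
  intro z
  constructor
  swap
  · exact fun hz => form_in h (sb_mod h hKe hKf x) hz m
  rintro ⟨hF, hLv⟩
  by_contra hn
  obtain ⟨b, hb, hNb⟩ := nb_ex h hKe hKf hx hk
  have hzK := form_K h hK hb hNb hF
  obtain ⟨p, p1, p2, p3, p4⟩ := lv_path h hK hKe hKf hx hNb hb hzK (fun g => hn ⟨hzK, g⟩) hF hLv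
  have hcard : ((Finset.range t).image p).card = t := by
    rw [Finset.card_image_of_injOn, Finset.card_range]
    intro i hi j hj hij
    rw [Finset.mem_coe, Finset.mem_range] at hi hj
    rcases lt_trichotomy i j with g | g | g
    · exact absurd (Or.inl hij) (p2 i j g (by omega))
    · exact g
    · exact absurd (Or.inl hij.symm) (p2 j i g (by omega))
  refine ktt_K hl ((Finset.range t).image p) B ?_ (fun b hb => (hB b hb).1) ?_ hBI ?_ hcard.ge hBt
  · intro a ha
    rw [Finset.mem_image] at ha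
    obtain ⟨i, hi, rfl⟩ := ha
    rw [Finset.mem_range] at hi
    exact (p1 i (by omega)).1
  · intro a ha b hb hab
    rw [Finset.mem_image] at ha hb
    obtain ⟨i, hi, rfl⟩ := ha
    obtain ⟨j, hj, rfl⟩ := hb
    rw [Finset.mem_range] at hi hj
    rcases lt_trichotomy i j with g | g | g
    · exact p2 i j g (by omega)
    · subst g
      exact absurd rfl hab
    · exact fun g' => p2 j i g (by omega) (sb_symm g')
  · intro a ha b hb
    rw [Finset.mem_image] at ha
    obtain ⟨i, hi, rfl⟩ := ha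
    rw [Finset.mem_range] at hi
    obtain ⟨g1, g2⟩ := p1 i (by omega)
    refine ⟨g2.2 b (hB b hb).2, fun g3 => g2.1 ?_⟩
    exact ne_blk h hKe hKf (hB b hb).1 g1 (sb_symm g3) (hB b hb).2

/-! ### The tree -/

/-- The modular decomposition. -/
structure Tr (t : ℕ) (e f : V → V → Prop) (W : ℕ → V → V → Prop) : Prop where
  nest : Nest W
  mod : ∀ i x, Q.Mod e (W i x)
  root : ∀ x z, W 0 x z
  par : ∀ i x, ¬ Conn e (W i x) → W (i + 1) x = Cp e (W i x) x
  ser : ∀ i x, ¬ Conn f (W i x) → W (i + 1) x = Cp f (W i x) x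
  pri : ∀ i x, Conn e (W i x) → Conn f (W i x) →
    W (i + 1) x = fun z => W i x z ∧ SB e (W i x) x z
  lab : ∀ i x y, W i x y → y ≠ x → Lb t e (W i x) ∨ Lb t f (W i x)

theorem Tr.symm (h : Cmp e f) (hT : Tr t e f W) : Tr t f e W where
  nest := hT.nest
  mod := fun i x => mod_cmp h (hT.mod i x)
  root := hT.root
  par := hT.ser
  ser := hT.par
  pri := by
    intro i x h1 h2
    rw [hT.pri i x h2 h1]
    funext z
    exact propext ⟨fun g => ⟨g.1, sb_cmp h g.2⟩, fun g => ⟨g.1, sb_cmp h.symm g.2⟩⟩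
  lab := fun i x y h1 h2 => (hT.lab i x y h1 h2).symm

theorem tr_of [Finite V] (h : Cmp e f) (hB : BfDec t e) :
    Tr t e f (Wm e f (fun _ => False) (fun _ => False)) where
  nest := P1346e8.K.nest h
  mod := fun i x => wm_mod h i x
  root := fun _ _ => trivial
  par := by
    intro i x hc
    rw [wm_succ, bm_p h hc]
    exact bc_eq_cp (fun g => g.2)
  ser := by
    intro i x hc
    rw [wm_succ, bm_s h hc]
    exact bc_eq_cp (fun g => g.2)
  pri := by
    intro i x h1 h2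
    rw [wm_succ, bm_b h1 h2]
    funext z
    exact propext ⟨fun g => ⟨g.2.1, g.2.2⟩, fun g => ⟨P1346e8.K.wm_self i x, g.1, g.2⟩⟩
  lab := fun i x y h1 h2 => labels h hB (wm_mod h i x) h1 (P1346e8.K.wm_self i x) h2

/-- The node can be treated by `e`. -/
def Ab (t : ℕ) (e f : V → V → Prop) (P : V → Prop) : Prop :=
  ¬ Conn e P ∨ (Conn e P ∧ Conn f P ∧ Lb t e P)

theorem ab_or (hT : Tr t e f W) (hy : W i x y) (hne : y ≠ x) :
    Ab t e f (W i x) ∨ Ab t f e (W i x) := by
  by_cases h1 : Conn e (W i x)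
  · by_cases h2 : Conn f (W i x)
    · rcases hT.lab i x y hy hne with g | g
      · exact Or.inl (Or.inr ⟨h1, h2, g⟩)
      · exact Or.inr (Or.inr ⟨h2, h1, g⟩)
    · exact Or.inr (Or.inl h2)
  · exact Or.inl (Or.inl h1)

theorem pri_sb (hT : Tr t e f W) (h1 : Conn e (W i x)) (h2 : Conn f (W i x)) (hy : W i x y) :
    W (i + 1) y z ↔ W i x z ∧ SB e (W i x) y z := by
  have e1 := hT.nest.eq i x y hy
  rw [e1] at h1 h2 ⊢
  rw [hT.pri i y h1 h2]

theorem sep_sb (hT : Tr t e f W) (h1 : Conn e (W i x)) (h2 : Conn f (W i x))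
    (hs : Sp W i x y) : ¬ SB e (W i x) x y := fun g =>
  hs.2 ((pri_sb hT h1 h2 (hT.nest.self i x)).2 ⟨hs.1, g⟩)

/-- The children are described by the other graph. -/
theorem ds_child [Finite V] (h : Cmp e f) (hT : Tr t e f W) (hm : 2 * t ≤ m)
    (hA : Ab t e f (W i x)) (hy : W i x y) (hne : y ≠ x) : Ds f m (W (i + 1) x) := by
  rcases hA with hA | ⟨h1, h2, h3⟩
  · rw [hT.par i x hA]
    intro z
    exact formA h.symm (mod_cmp h (hT.mod i x)) (cp_ne h.se hA x) m z
  · rw [hT.pri i x h1 h2]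
    have e1 : (fun z => W i x z ∧ SB e (W i x) x z) = fun z => W i x z ∧ SB f (W i x) x z := by
      funext z
      exact propext ⟨fun g => ⟨g.1, sb_cmp h g.2⟩, fun g => ⟨g.1, sb_cmp h.symm g.2⟩⟩
    rw [e1]
    exact ds_anti h.symm h3 (mod_cmp h (hT.mod i x)) h2 h1 (hT.nest.self i x)
      (sb_ne h.symm h2 h1 (hT.nest.self i x) hy hne) hm

/-- The set of a pair in a child. -/
theorem sub_child [Finite V] (h : Cmp e f) (hT : Tr t e f W) (hm : 2 * t ≤ m)
    (hA : Ab t e f (W i x)) (hy : W (i + 1) x y) (hne : y ≠ x) (hS : Stab f m J x y)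
    (hz : Te f m J x y z) : W (i + 1) x z :=
  form_sub h.symm (is_max h.sf h.jf hS) (mod_cmp h (hT.mod (i + 1) x))
    (ds_child h hT hm hA (hT.nest.sub _ _ _ hy) hne) (hT.nest.self _ x) hy hz

theorem not_cp (h : Cmp e f) (hxy : ¬ Cp e K x y) (hx : K x) (hy : K y) (hd : e d x ∧ e d y) :
    ¬ K d := fun g => hxy ((Cp.step hx g (h.se _ _ hd.1)).trans (Cp.step g hy hd.2))

/-- Separated pairs of able nodes are good. -/
theorem gd_of_ab (h : Cmp e f) (hT : Tr t e f W) (hm : 2 ≤ m) (hJ : 8 * t + 2 ≤ J)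
    (hL : 2 * t ≤ L) (hL' : 1 ≤ L) (hA : Ab t e f (W i x)) (hs : Sp W i x y) :
    Gd e f m J L x y := by
  have hx := hT.nest.self i x
  rcases hA with hA | ⟨h1, h2, h3⟩
  · have hcp : ¬ Cp e (W i x) x y := by
      intro g
      rw [← hT.par i x hA] at g
      exact hs.2 g
    constructor
    · intro d hd
      exact ne_nn h (hT.mod i x) hx hs.1 (nn_out h (hT.mod i x) hx hd
        (not_cp h hcp hx hs.1 (nn_adj hd)))
    · have hf : f x y := (h.symm.ef x y (hs.ne hT.nest)).2 (fun g => hcp (Cp.step hx hs.1 g))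
      exact pt_mono hL' (Or.inr ⟨y, sq_y, hf, rfl⟩)
  · exact gd_prime h h3 (hT.mod i x) h1 h2 hm hx hs.1 (sep_sb hT h1 h2 hs) hJ hL

theorem pt_cp {S : V → Prop} (hS : ∀ c, S c → K c) : ∀ n u, K u → Pt f S y n u → Cp f K u y := by
  intro n
  induction n with
  | zero =>
    rintro u hu rfl
    exact Cp.refl hu
  | succ n ih =>
    rintro u hu (rfl | ⟨w, h1, h2, h3⟩)
    · exact Cp.refl hu
    · exact (Cp.step hu (hS w h1) h2).trans (ih w (hS w h1) h3)

/-- Good pairs are not separated in series nodes. -/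
theorem gd_conn (h : Cmp e f) (hT : Tr t e f W) (hs : Sp W i x y) (hg : Gd e f m J L x y) :
    Conn f (W i x) := by
  by_contra hc
  have h1 := pt_cp (K := W i x) (fun c hc =>
    sq_mod h (hT.mod i x) (hT.nest.self i x) hs.1 hc) L x (hT.nest.self i x) hg.2
  rw [← hT.ser i x hc] at h1
  exact hs.2 h1

/-- `F` is a node. -/
def Nd (W : ℕ → V → V → Prop) (F : V → Prop) : Prop := ∃ i x, F = W i x

/-- `F` is a union of some blocks of a prime node. -/
def Pa (t : ℕ) (e f : V → V → Prop) (W : ℕ → V → V → Prop) (F : V → Prop) : Prop :=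
  ∃ i x, Conn e (W i x) ∧ Conn f (W i x) ∧ Lb t e (W i x) ∧ ¬ Lb t f (W i x) ∧
    (∀ z, F z → W i x z) ∧ (∀ z w, F z → W (i + 1) z w → F w) ∧ ∃ w, W i x w ∧ ¬ F w

/-- The form of the described sets of the nodes. -/
theorem fe_str [Finite V] (h : Cmp e f) (hT : Tr t e f W) (hm : 2 * t ≤ m) (i : ℕ) :
    ∀ x y, W i x y → y ≠ x → Nd W (Form e (Ne e (W i x)) m) ∨ Pa t e f W (Form e (Ne e (W i x)) m)
    := by
  induction i with
  | zero =>
    intro x y _ _
    have e1 : W 0 x = fun _ => True := by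
      funext z
      exact propext ⟨fun _ => trivial, fun _ => hT.root x z⟩
    refine Or.inl ⟨0, x, ?_⟩
    rw [e1]
    funext z
    exact propext ⟨fun _ => trivial, fun _ => form_root h m z⟩
  | succ i ih =>
    intro x y hy hne
    have hyi := hT.nest.sub _ _ _ hy
    have ds_nd : Ds e m (W (i + 1) x) → Nd W (Form e (Ne e (W (i + 1) x)) m) := by
      intro g
      refine ⟨i + 1, x, ?_⟩
      funext z
      exact propext (g z)
    by_cases hc : Conn e (W i x)
    swap
    · rw [hT.par i x hc, ne_cp' h (hT.mod i x) (hT.nest.self i x)]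
      exact ih x y hyi hne
    by_cases hc' : Conn f (W i x)
    swap
    · exact Or.inl (ds_nd (ds_child h.symm (hT.symm h) hm (Or.inl hc') hyi hne))
    by_cases hl : Lb t f (W i x)
    · exact Or.inl (ds_nd (ds_child h.symm (hT.symm h) hm (Or.inr ⟨hc', hc, hl⟩) hyi hne))
    have hl' := (hT.lab i x y hyi hne).resolve_right hl
    right
    have hx := hT.nest.self i x
    obtain ⟨b, hb, hNb⟩ := nb_ex h hc hc' hx (sb_ne h hc hc' hx hyi hne)
    rw [← hT.pri i x hc hc'] at hNb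
    refine ⟨i, x, hc, hc', hl', hl, ?_, ?_, b, hb, fun g => g.1.1 hNb⟩
    · intro z hz
      by_contra g
      refine hz.1.1 ⟨fun g' => g (hT.nest.sub _ _ _ g'), fun w hw => ?_⟩
      exact h.se _ _ (hT.mod i x b w z hb (hT.nest.sub _ _ _ hw) g (h.se _ _ (hz.1.2 b hNb)))
    · intro z w hz hw
      by_cases hzx : W (i + 1) x z
      · exact form_in h (hT.mod (i + 1) x) (hT.nest.trans hzx hw) m
      · refine form_mod h.se (hT.mod (i + 1) z) ?_ (hT.nest.self _ z) hz hw
        intro d hd hdz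
        refine hz.1.1 ⟨hzx, fun a ha => ?_⟩
        have hza : ¬ W (i + 1) z a := fun g => hzx (hT.nest.trans ha (hT.nest.symm g))
        exact hT.mod (i + 1) z d z a hdz (hT.nest.self _ z) hza (hd.2 a ha)
where
  ne_cp' {e f : V → V → Prop} {W : V → Prop} {x : V} (h : Cmp e f) (hW : Q.Mod e W) (hx : W x) :
      Ne e (Cp e W x) = Ne e W := by
    funext d
    apply propext
    constructor
    · rintro ⟨g1, g2⟩
      have hdx := g2 x (Cp.refl hx)
      have hdW : ¬ W d := fun g => g1 (Cp.step hx g (h.se _ _ hdx))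
      exact ⟨hdW, fun w hw => h.se _ _ (hW x w d hx hw hdW (h.se _ _ hdx))⟩
    · rintro ⟨g1, g2⟩
      exact ⟨fun g => g1 g.2.1, fun w hw => g2 w hw.2.1⟩

/-- The two forms of a good pair. -/
theorem te_form [Finite V] (h : Cmp e f) (hT : Tr t e f W) (hm : 2 ≤ m) (hmt : 2 * t ≤ m + 1)
    (hs : Sp W i x y) (hg : Gd e f m J L x y) :
    Te e m J x y = Form e (Ne e (W i x)) m ∨
    (Conn e (W i x) ∧ Conn f (W i x) ∧ Lb t e (W i x) ∧ ¬ Lb t f (W i x) ∧
      (∀ z, Te e m J x y z → W i x z) ∧ (∀ z w, Te e m J x y z → W (i + 1) z w → Te e m J x y w) ∧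
      ∃ w, W i x w ∧ ¬ Te e m J x y w) := by
  have hx := hT.nest.self i x
  have hKm := hT.mod i x
  have hf := gd_conn h hT hs hg
  by_cases hN : ∀ d, W i x d → ¬ Nn e m J x y d
  · left
    unfold Te
    rw [nn_eq h hKm hx hs.1 hN]
  right
  push Not at hN
  obtain ⟨d, hd, hdN⟩ := hN
  have hc : Conn e (W i x) := by
    by_contra hc
    refine not_cp h ?_ hx hs.1 (nn_adj hdN) hd
    intro g
    rw [← hT.par i x hc] at g
    exact hs.2 g
  have hsb := sep_sb hT hc hf hs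
  have hl : ¬ Lb t f (W i x) := fun g => no_nn h g hKm hc hf hm hmt hx hs.1 hsb hg.1 hdN hd
  have hl' := (hT.lab i x y hs.1 (hs.ne hT.nest).symm).resolve_right hl
  have hsub : ∀ z, Te e m J x y z → W i x z := fun z hz => te_sub h hKm hx hs.1 hdN hd hz
  refine ⟨hc, hf, hl', hl, hsub, ?_, d, hd, fun g => (form_iff.1 g).1 hdN⟩
  intro z w hz hw
  have hzK := hsub z hz
  have h1 := (pri_sb hT hc hf hzK).1 hw
  exact te_blk h hKm hc hf hm hx hs.1 hsb hg.1 hz hzK h1.1 h1.2

/-- The form of the set of a good pair. -/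
theorem te_str [Finite V] (h : Cmp e f) (hT : Tr t e f W) (hm : 2 ≤ m) (hmt : 2 * t ≤ m)
    (hs : Sp W i x y) (hg : Gd e f m J L x y) :
    Nd W (Te e m J x y) ∨ Pa t e f W (Te e m J x y) := by
  rcases te_form h hT hm (by omega) hs hg with g | g
  · rw [g]
    exact fe_str h hT hmt i x y hs.1 (hs.ne hT.nest).symm
  · exact Or.inr ⟨i, x, g⟩

/-- Sets of different kinds are nested or disjoint. -/
theorem cross (hT : Tr t e f W) (h1 : Nd W F1 ∨ Pa t e f W F1) (h2 : Nd W F2 ∨ Pa t f e W F2)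
    (hz1 : F1 z) (hz2 : F2 z) : (∀ w, F1 w → F2 w) ∨ ∀ w, F2 w → F1 w := by
  have hN := hT.nest
  have u1 : ∃ i, (∀ w, F1 w → W i z w) ∧ (∀ a w, F1 a → W (i + 1) a w → F1 w) ∧
      ((∀ w, W i z w → F1 w) ∨ ¬ Lb t f (W i z)) := by
    rcases h1 with ⟨i, x, rfl⟩ | ⟨i, x, _, _, g3, g4, g5, g6, _⟩
    · refine ⟨i, ?_, fun a w ha hw => hN.trans ha (hN.sub _ _ _ hw), Or.inl ?_⟩
      · intro w hw
        rw [← hN.eq i x z hz1]
        exact hw
      · intro w hw
        rw [hN.eq i x z hz1]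
        exact hw
    · have e1 := hN.eq i x z (g5 z hz1)
      rw [e1] at g4 g5
      exact ⟨i, g5, g6, Or.inr g4⟩
  have u2 : ∃ i, (∀ w, F2 w → W i z w) ∧ (∀ a w, F2 a → W (i + 1) a w → F2 w) ∧
      ((∀ w, W i z w → F2 w) ∨ Lb t f (W i z)) := by
    rcases h2 with ⟨i, x, rfl⟩ | ⟨i, x, _, _, g3, g4, g5, g6, _⟩
    · refine ⟨i, ?_, fun a w ha hw => hN.trans ha (hN.sub _ _ _ hw), Or.inl ?_⟩
      · intro w hw
        rw [← hN.eq i x z hz2]
        exact hw
      · intro w hw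
        rw [hN.eq i x z hz2]
        exact hw
    · have e1 := hN.eq i x z (g5 z hz2)
      rw [e1] at g3 g5
      exact ⟨i, g5, g6, Or.inr g3⟩
  obtain ⟨i, a1, a2, a3⟩ := u1
  obtain ⟨j, b1, b2, b3⟩ := u2
  rcases lt_trichotomy i j with g | g | g
  · right
    intro w hw
    exact a2 z w hz1 (hN.mono g (b1 w hw))
  · subst g
    rcases a3 with a3 | a3
    · right
      intro w hw
      exact a3 w (b1 w hw)
    · rcases b3 with b3 | b3
      · left
        intro w hw
        exact b3 w (a1 w hw)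
      · exact absurd b3 a3
  · left
    intro w hw
    exact b2 z w hz2 (hN.mono g (a1 w hw))

/-- The relative position of two pairs. -/
theorem position (hN : Nest W) (hs : Sp W i x y) (hs' : Sp W j u v) :
    (i = j ∧ W i x u) ∨ (j < i ∧ W j x u) ∨ (i < j ∧ W i x u) ∨
      ∃ k, k < i ∧ k < j ∧ W k x u ∧ ¬ W (k + 1) x u := by
  have key : ∀ k, k ≤ i → k ≤ j → W k x u ∨ ∃ k', k' < k ∧ W k' x u ∧ ¬ W (k' + 1) x u := by
    intro k hki hkj
    by_cases hxu : x = u
    · subst hxu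
      exact Or.inl (hN.self _ _)
    · obtain ⟨l, hl⟩ := hN.ex x u hxu
      by_cases hlk : l < k
      · exact Or.inr ⟨l, hlk, hl⟩
      · exact Or.inl (hN.mono (by omega) hl.1)
  rcases lt_trichotomy i j with g | g | g
  · rcases key i le_rfl g.le with g' | ⟨k, k1, k2, k3⟩
    · exact Or.inr (Or.inr (Or.inl ⟨g, g'⟩))
    · exact Or.inr (Or.inr (Or.inr ⟨k, k1, by omega, k2, k3⟩))
  · rcases key i le_rfl g.le with g' | ⟨k, k1, k2, k3⟩
    · exact Or.inl ⟨g, g'⟩
    · exact Or.inr (Or.inr (Or.inr ⟨k, k1, by omega, k2, k3⟩))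
  · rcases key j g.le le_rfl with g' | ⟨k, k1, k2, k3⟩
    · exact Or.inr (Or.inl ⟨g, g'⟩)
    · exact Or.inr (Or.inr (Or.inr ⟨k, by omega, k1, k2, k3⟩))

/-- Two pairs separated in nodes of different kinds are not both in the sets of each other. -/
theorem no_two [Finite V] (h : Cmp e f) (hT : Tr t e f W) (hm : 2 * t ≤ m)
    (hs : Sp W i x y) (hs' : Sp W j u v) (hA : Ab t e f (W i x)) (hA' : Ab t f e (W j u))
    (hn : ¬ Ab t e f (W j u) ∨ ¬ Ab t f e (W i x))
    (hS : Stab e m J x y) (hS' : Stab f m J u v) (h1 : Te e m J x y u) (h2 : Te e m J x y v)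
    (h3 : Te f m J u v x) (h4 : Te f m J u v y) : False := by
  have hN := hT.nest
  have hne := (hs.ne hN).symm
  have hne' := (hs'.ne hN).symm
  rcases position hN hs hs' with ⟨g, g'⟩ | ⟨g, g'⟩ | ⟨g, g'⟩ | ⟨k, k1, k2, k3, k4⟩
  · subst g
    rw [hN.eq i x u g'] at hA hn
    rcases hn with hn | hn
    · exact hn hA
    · exact hn hA'
  · rw [← hN.eq j x u g'] at hA'
    have c := fun z (hz : Te e m J x y z) =>
      sub_child h.symm (hT.symm h) hm hA' (hN.mono g hs.1) hne hS hz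
    exact hs'.2 (hN.trans (hN.symm (c u h1)) (c v h2))
  · rw [hN.eq i x u g'] at hA
    have c := fun z (hz : Te f m J u v z) => sub_child h hT hm hA (hN.mono g hs'.1) hne' hS' hz
    exact hs.2 (hN.trans (hN.symm (c x h3)) (c y h4))
  · rcases ab_or hT (hN.mono k1.le hs.1) hne with g | g
    · rw [hN.eq k x u k3] at g
      exact k4 (hN.symm (sub_child h hT hm g (hN.mono k2 hs'.1) hne' hS' h3))
    · exact k4 (sub_child h.symm (hT.symm h) hm g (hN.mono k1 hs.1) hne hS h1)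

end Z

end P1346e8
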