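import Pool.Agent.Lib.P1346Z.TreeZ

/-!
# The nested family of the sets of pairs
-/

set_option autoImplicit false

namespace P1346e8

namespace Z

open Q

open P1346e8.K (Nest Sp)

variable {V : Type} {e f H : V → V → Prop} {N K Y P F F1 F2 : V → Prop} {m n i j k J t L : ℕ}
  {x y u v w z c d : V} {W : ℕ → V → V → Prop}

/-- `x`, `y` is a good pair and its set has no bad pair. -/
def Se (e f : V → V → Prop) (m J L : ℕ) (x y : V) : Prop :=
  Gd e f m J L x y ∧ ¬ ∃ u v, u ≠ v ∧ Te e m J x y u ∧ Te e m J x y v ∧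
    ¬ Gd e f m J L u v ∧ Gd f e m J L u v ∧ Te f m J u v x ∧ Te f m J u v y

/-- The set of the pair `x`, `y`. -/
def Tz (H f : V → V → Prop) (m J L : ℕ) (x y z : V) : Prop :=
  (Se H f m J L x y → Te H m J x y z) ∧ (Se f H m J L x y → Te f m J x y z)

theorem tz_swap : Tz f H m J L x y = Tz H f m J L x y := by
  funext z
  exact propext and_comm

/-- The parameters. -/
structure Pr (t m J L : ℕ) : Prop where
  m2 : 2 ≤ m
  mt : 2 * t ≤ m
  J8 : 8 * t + 2 ≤ J
  L2 : 2 * t ≤ L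
  L1 : 1 ≤ L

theorem se_of_ab [Finite V] (h : Cmp e f) (hT : Tr t e f W) (hp : Pr t m J L)
    (hA : Ab t e f (W i x)) (hs : Sp W i x y) : Se e f m J L x y := by
  refine ⟨gd_of_ab h hT hp.m2 hp.J8 hp.L2 hp.L1 hA hs, ?_⟩
  rintro ⟨u, v, huv, h1, h2, h3, h4, h5, h6⟩
  obtain ⟨j, hj⟩ : ∃ j, Sp W j u v := hT.nest.ex u v huv
  have hn : ¬ Ab t e f (W j u) := fun g =>
    h3 (gd_of_ab h hT hp.m2 hp.J8 hp.L2 hp.L1 g hj)
  have hA' := (ab_or hT hj.1 (hj.ne hT.nest).symm).resolve_left hn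
  exact no_two h hT hp.mt hs hj hA hA' (Or.inl hn)
    (gd_of_ab h hT hp.m2 hp.J8 hp.L2 hp.L1 hA hs).1 h4.1 h1 h2 h5 h6

theorem se_or [Finite V] (h : Cmp e f) (hT : Tr t e f W) (hp : Pr t m J L) (hne : x ≠ y) :
    Se e f m J L x y ∨ Se f e m J L x y := by
  obtain ⟨i, hi⟩ := hT.nest.ex x y hne
  rcases ab_or hT hi.1 hne.symm with g | g
  · exact Or.inl (se_of_ab h hT hp g hi)
  · exact Or.inr (se_of_ab h.symm (hT.symm h) hp g hi)

theorem te_x (h : Cmp e f) (hg : Gd e f m J L x y) : Te e m J x y x := (gd_max h hg).1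

theorem te_y (h : Cmp e f) (hg : Gd e f m J L x y) : Te e m J x y y := (gd_max h hg).2.1

/-- Good pairs of different kinds. -/
theorem cross_gd [Finite V] (h : Cmp e f) (hT : Tr t e f W) (hp : Pr t m J L)
    (hxy : x ≠ y) (huv : u ≠ v) (hg : Gd e f m J L x y) (hg' : Gd f e m J L u v)
    (h1 : Te e m J x y z) (h2 : Te f m J u v z) :
    (∀ w, Te e m J x y w → Te f m J u v w) ∨ ∀ w, Te f m J u v w → Te e m J x y w := by
  obtain ⟨i, hi⟩ := hT.nest.ex x y hxy
  obtain ⟨j, hj⟩ := hT.nest.ex u v huv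
  exact cross hT (te_str h hT hp.m2 hp.mt hi hg)
    (te_str h.symm (hT.symm h) hp.m2 hp.mt hj hg') h1 h2

theorem tz_eq [Finite V] (h : Cmp e f) (hT : Tr t e f W) (hp : Pr t m J L) (hxy : x ≠ y) :
    (Se e f m J L x y ∧ Tz e f m J L x y = Te e m J x y) ∨
      (Se f e m J L x y ∧ Tz e f m J L x y = Te f m J x y) := by
  by_cases h1 : Se e f m J L x y
  · by_cases h2 : Se f e m J L x y
    · rcases cross_gd h hT hp hxy hxy h1.1 h2.1 (te_x h h1.1) (te_x h.symm h2.1) with g | g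
      · refine Or.inl ⟨h1, ?_⟩
        funext z
        exact propext ⟨fun k => k.1 h1, fun k => ⟨fun _ => k, fun _ => g z k⟩⟩
      · refine Or.inr ⟨h2, ?_⟩
        funext z
        exact propext ⟨fun k => k.2 h2, fun k => ⟨fun _ => g z k, fun _ => k⟩⟩
    · refine Or.inl ⟨h1, ?_⟩
      funext z
      exact propext ⟨fun k => k.1 h1, fun k => ⟨fun _ => k, fun g => absurd g h2⟩⟩
  · have h2 := (se_or h hT hp hxy).resolve_left h1
    refine Or.inr ⟨h2, ?_⟩
    funext z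
    exact propext ⟨fun k => k.2 h2, fun k => ⟨fun g => absurd g h1, fun _ => k⟩⟩

theorem tz_x [Finite V] (h : Cmp e f) (hT : Tr t e f W) (hp : Pr t m J L) (hxy : x ≠ y) :
    Tz e f m J L x y x ∧ Tz e f m J L x y y := by
  rcases tz_eq h hT hp hxy with ⟨g, g'⟩ | ⟨g, g'⟩
  · rw [g']
    exact ⟨te_x h g.1, te_y h g.1⟩
  · rw [g']
    exact ⟨te_x h.symm g.1, te_y h.symm g.1⟩

theorem tz_lam [Finite V] (h : Cmp e f) (hT : Tr t e f W) (hp : Pr t m J L) (hxy : x ≠ y)
    (huv : u ≠ v) (h1 : Tz e f m J L x y z) (h2 : Tz e f m J L u v z) :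
    (∀ w, Tz e f m J L x y w → Tz e f m J L u v w) ∨
      ∀ w, Tz e f m J L u v w → Tz e f m J L x y w := by
  rcases tz_eq h hT hp hxy with ⟨g, g'⟩ | ⟨g, g'⟩
  · rcases tz_eq h hT hp huv with ⟨k, k'⟩ | ⟨k, k'⟩
    · rw [g'] at h1 ⊢
      rw [k'] at h2 ⊢
      exact te_laminar h hp.m2 g.1 h1 h2
    · rw [g'] at h1 ⊢
      rw [k'] at h2 ⊢
      exact cross_gd h hT hp hxy huv g.1 k.1 h1 h2
  · rcases tz_eq h hT hp huv with ⟨k, k'⟩ | ⟨k, k'⟩
    · rw [g'] at h1 ⊢
      rw [k'] at h2 ⊢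
      exact (cross_gd h hT hp huv hxy k.1 g.1 h2 h1).symm
    · rw [g'] at h1 ⊢
      rw [k'] at h2 ⊢
      exact te_laminar h.symm hp.m2 g.1 h1 h2

theorem te_min (h : Cmp e f) (hg : Gd e f m J L x y) (hx : Te e m J u v x)
    (hy : Te e m J u v y) (hz : Te e m J x y z) : Te e m J u v z :=
  form_min h.se (gd_max h hg) hx hy hz

/-- The set of a pair in a set, where the set is of kind `e`. -/
theorem min_aux [Finite V] (h : Cmp e f) (hT : Tr t e f W) (hp : Pr t m J L) (hxy : x ≠ y)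
    (huv : u ≠ v) (hS : Se e f m J L u v) (hx : Te e m J u v x) (hy : Te e m J u v y)
    (hz : Tz e f m J L x y z) : Te e m J u v z := by
  by_cases h1 : Se e f m J L x y
  · exact te_min h h1.1 hx hy (hz.1 h1)
  have h2 := (se_or h hT hp hxy).resolve_left h1
  have hz2 := hz.2 h2
  by_cases hg : Gd e f m J L x y
  · have h3 : ∃ a b, a ≠ b ∧ Te e m J x y a ∧ Te e m J x y b ∧ ¬ Gd e f m J L a b ∧
        Gd f e m J L a b ∧ Te f m J a b x ∧ Te f m J a b y := by
      by_contra g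
      exact h1 ⟨hg, g⟩
    obtain ⟨a, b, hab, a1, a2, a3, a4, a5, a6⟩ := h3
    have hz3 := te_min h.symm h2.1 a5 a6 hz2
    rcases cross_gd h hT hp huv hab hS.1 a4 hx a5 with g | g
    · exact absurd ⟨a, b, hab, te_min h hg hx hy a1, te_min h hg hx hy a2, a3, a4,
        g u (te_x h hS.1), g v (te_y h hS.1)⟩ hS.2
    · exact g z hz3
  · rcases cross_gd h hT hp huv hxy hS.1 h2.1 hx (te_x h.symm h2.1) with g | g
    · exact absurd ⟨x, y, hxy, hx, hy, hg, h2.1, g u (te_x h hS.1), g v (te_y h hS.1)⟩ hS.2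
    · exact g z hz2

theorem tz_min [Finite V] (h : Cmp e f) (hT : Tr t e f W) (hp : Pr t m J L) (hxy : x ≠ y)
    (huv : u ≠ v) (hx : Tz e f m J L u v x) (hy : Tz e f m J L u v y)
    (hz : Tz e f m J L x y z) : Tz e f m J L u v z := by
  rcases tz_eq h hT hp huv with ⟨g, g'⟩ | ⟨g, g'⟩
  · rw [g'] at hx hy ⊢
    exact min_aux h hT hp hxy huv g hx hy hz
  · rw [g'] at hx hy ⊢
    rw [← tz_swap] at hz
    exact min_aux h.symm (hT.symm h) hp hxy huv g hx hy hz

/-- All pairs with the same set are separated in nodes of the same kind. -/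
theorem kind_uni [Finite V] (h : Cmp e f) (hT : Tr t e f W) (hp : Pr t m J L)
    (hs : Sp W i x y) (hs' : Sp W j u v) (hF : ∀ z, Tz e f m J L x y z ↔ Tz e f m J L u v z)
    (h1 : ¬ Ab t e f (W i x)) (h2 : ¬ Ab t f e (W j u)) : False := by
  have hN := hT.nest
  have h1' := (ab_or hT hs.1 (hs.ne hN).symm).resolve_left h1
  have h2' := (ab_or hT hs'.1 (hs'.ne hN).symm).resolve_right h2
  have s1 := se_of_ab h.symm (hT.symm h) hp h1' hs
  have s2 := se_of_ab h hT hp h2' hs'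
  have m1 := tz_x h hT hp (hs.ne hN)
  have m2 := tz_x h hT hp (hs'.ne hN)
  exact no_two h hT hp.mt hs' hs h2' h1' (Or.inr h2) s2.1.1 s1.1.1
    (((hF x).1 m1.1).1 s2) (((hF y).1 m1.2).1 s2) (((hF u).2 m2.1).2 s1) (((hF v).2 m2.2).2 s1)

/-! ### The nested sequence -/

section nested

variable {T : V → V → V → Prop}

/-- A family of sets of pairs. -/
structure Fam3 (T : V → V → V → Prop) : Prop where
  mem : ∀ x y, x ≠ y → T x y x ∧ T x y y
  lam : ∀ x y u v z, x ≠ y → u ≠ v → T x y z → T u v z →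
    (∀ w, T x y w → T u v w) ∨ ∀ w, T u v w → T x y w
  min : ∀ x y u v, x ≠ y → u ≠ v → T u v x → T u v y → ∀ z, T x y z → T u v z

/-- The sets that properly contain `F`. -/
def Up (T : V → V → V → Prop) (F : V → Prop) : Set (Set V) :=
  {G | (∃ u v, u ≠ v ∧ G = {z | T u v z}) ∧ (∀ z, F z → z ∈ G) ∧ ∃ z ∈ G, ¬ F z}

/-- The depth of a set. -/
noncomputable def dp (T : V → V → V → Prop) (F : V → Prop) : ℕ := (Up T F).ncard

theorem dp_mono [Finite V] (hF : ∀ z, F1 z → F2 z) : dp T F2 ≤ dp T F1 := by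
  refine Set.ncard_le_ncard ?_ (Set.toFinite _)
  rintro G ⟨g1, g2, z, g3, g4⟩
  exact ⟨g1, fun z hz => g2 z (hF z hz), z, g3, fun g => g4 (hF z g)⟩

theorem dp_lt [Finite V] (huv : u ≠ v) (hF : ∀ z, F1 z → T u v z) (hz : T u v z)
    (hz' : ¬ F1 z) : dp T (T u v) < dp T F1 := by
  refine Set.ncard_lt_ncard ⟨?_, ?_⟩ (Set.toFinite _)
  · rintro G ⟨g1, g2, z, g3, g4⟩
    exact ⟨g1, fun z hz => g2 z (hF z hz), z, g3, fun g => g4 (hF z g)⟩
  · intro g
    have h1 : {z | T u v z} ∈ Up T F1 := ⟨⟨u, v, huv, rfl⟩, hF, z, hz, hz'⟩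
    obtain ⟨_, _, z', g3, g4⟩ := g h1
    exact g4 g3

/-- The nested sequence. -/
def Wz (T : V → V → V → Prop) (i : ℕ) (x z : V) : Prop := z = x ∨ i ≤ dp T (T x z)

theorem fam_comm (hF : Fam3 T) (x y : V) : T x y = T y x := by
  by_cases hxy : x = y
  · subst hxy
    rfl
  · funext z
    apply propext
    exact ⟨hF.min x y y x hxy (Ne.symm hxy) (hF.mem y x (Ne.symm hxy)).2
      (hF.mem y x (Ne.symm hxy)).1 z, hF.min y x x y (Ne.symm hxy) hxy (hF.mem x y hxy).2
      (hF.mem x y hxy).1 z⟩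

theorem wz_trans [Finite V] (hF : Fam3 T) {i : ℕ} {x y z : V} (h1 : Wz T i x y)
    (h2 : Wz T i x z) : Wz T i y z := by
  rcases h1 with rfl | h1
  · exact h2
  rcases h2 with rfl | h2
  · right
    rw [fam_comm hF]
    exact h1
  by_cases hyz : y = z
  · exact Or.inl hyz.symm
  by_cases hxy : x = y
  · subst hxy
    exact Or.inr h2
  by_cases hxz : x = z
  · subst hxz
    right
    rw [fam_comm hF]
    exact h1
  right
  rcases hF.lam x y x z x hxy hxz (hF.mem x y hxy).1 (hF.mem x z hxz).1 with g | g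
  · exact h2.trans (dp_mono (hF.min y z x z hyz hxz (g y (hF.mem x y hxy).2) (hF.mem x z hxz).2))
  · exact h1.trans (dp_mono (hF.min y z x y hyz hxy (hF.mem x y hxy).2 (g z (hF.mem x z hxz).2)))

theorem wz_symm [Finite V] (hF : Fam3 T) {i : ℕ} {x y : V} (h1 : Wz T i x y) : Wz T i y x :=
  wz_trans hF h1 (Or.inl rfl)

theorem wz_nest [Finite V] (hF : Fam3 T) : Nest (Wz T) where
  self := fun _ _ => Or.inl rfl
  sub := by
    rintro i x y (g | g)
    · exact Or.inl g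
    · exact Or.inr (by omega)
  eq := by
    intro i x y hxy
    funext z
    exact propext ⟨fun g => wz_trans hF hxy g, fun g => wz_trans hF (wz_symm hF hxy) g⟩
  ex := by
    intro x y hxy
    refine ⟨dp T (T x y), Or.inr le_rfl, ?_⟩
    rintro (g | g)
    · exact hxy g.symm
    · omega

theorem wz_sp [Finite V] (hF : Fam3 T) {i : ℕ} {x t : V} (hs : Sp (Wz T) i x t) (y : V) :
    T x t y ↔ Wz T i x y := by
  obtain ⟨h1, h2⟩ := hs
  have hxt : x ≠ t := fun g => h2 (Or.inl g.symm)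
  have hi : dp T (T x t) = i := by
    rcases h1 with g | g
    · exact absurd g.symm hxt
    · have : ¬ i + 1 ≤ dp T (T x t) := fun g' => h2 (Or.inr g')
      omega
  by_cases hxy : x = y
  · subst hxy
    exact ⟨fun _ => Or.inl rfl, fun _ => (hF.mem x t hxt).1⟩
  constructor
  · intro g
    right
    rw [← hi]
    exact dp_mono (hF.min x y x t hxy hxt (hF.mem x t hxt).1 g)
  · rintro (g | g)
    · exact absurd g.symm hxy
    · by_contra hn
      rcases hF.lam x y x t x hxy hxt (hF.mem x y hxy).1 (hF.mem x t hxt).1 with g' | g'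
      · exact hn (g' y (hF.mem x y hxy).2)
      · have := dp_lt hxy g' (hF.mem x y hxy).2 hn
        omega

end nested

theorem tz_fam [Finite V] (h : Cmp e f) (hT : Tr t e f W) (hp : Pr t m J L) :
    Fam3 (Tz e f m J L) where
  mem := fun _ _ hxy => tz_x h hT hp hxy
  lam := fun _ _ _ _ _ hxy huv h1 h2 => tz_lam h hT hp hxy huv h1 h2
  min := fun _ _ _ _ hxy huv h1 h2 _ hz => tz_min h hT hp hxy huv h1 h2 hz

end Z

end P1346e8
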