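import Pool.Agent.Lib.P1346Z.Tz

/-!
# Corners at prime nodes
-/

set_option autoImplicit false

namespace P1346e8

namespace Z

open Q

open P1346e8.K (Nest Sp Nx last_uniq first_uniq nx_inj)

variable {V : Type} {e f H : V → V → Prop} {N K Y P F F1 F2 : V → Prop} {m n i j k J t L : ℕ}
  {x y u v w z c d : V} {W R : ℕ → V → V → Prop} {T : V → V → V → Prop} {ν : V → ℕ}

/-- The first or the second of two elements. -/
def sel (σ : Bool) (u v : V) : V := match σ with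
  | true => u
  | false => v

theorem nx_uniq2 (hW : Nest R) (hνi : ∀ a b, ν a = ν b → a = b) {σ : Bool} {b b' c c' : V}
    (h1 : Nx R ν b b') (h2 : Nx R ν c c') {g : ℕ} (hz : R g (sel σ b b') (sel σ c c'))
    (hn1 : ¬ R g (sel σ b b') (sel σ b' b)) (hn2 : ¬ R g (sel σ c c') (sel σ c' c)) : b = c := by
  cases σ with
  | true => exact last_uniq hW hνi h1 hn1 h2 hn2 hz
  | false => exact first_uniq hW hνi h1 (fun g => hn1 (hW.symm g)) h2 (fun g => hn2 (hW.symm g)) hz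

theorem sel_inj (hW : Nest R) (hνi : ∀ a b, ν a = ν b → a = b) {σ : Bool} {b b' c c' : V}
    (h1 : Nx R ν b b') (h2 : Nx R ν c c') (hz : sel σ b b' = sel σ c c') : b = c := by
  cases σ with
  | true => exact hz
  | false =>
    change b' = c' at hz
    subst hz
    exact nx_inj hW hνi h1 h2

/-- Rows and columns with the same kind of violation. -/
structure Vi (t : ℕ) (e f : V → V → Prop) (W : ℕ → V → V → Prop)
    (T : V → V → V → Prop) (ν : V → ℕ) (nx : V → V) (κ : V → ℕ) (σ τ : Bool) (A B : Finset V) :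
    Prop where
  na : ∀ a ∈ A, Nx (Wz T) ν a (nx a)
  nb : ∀ b ∈ B, Nx (Wz T) ν b (nx b)
  sp : ∀ a ∈ A, Sp W (κ a) a (nx a)
  ce : ∀ a ∈ A, Conn e (W (κ a) a)
  cf : ∀ a ∈ A, Conn f (W (κ a) a)
  lb : ∀ a ∈ A, Lb t e (W (κ a) a)
  cl : ∀ a ∈ A, ∀ z w, T a (nx a) z → W (κ a + 1) z w → T a (nx a) w
  zk : ∀ a ∈ A, ∀ b ∈ B, W (κ a) a (sel τ b (nx b))
  zf : ∀ a ∈ A, ∀ b ∈ B, ¬ T a (nx a) (sel τ b (nx b))
  ep : ∀ a ∈ A, ∀ b ∈ B, e (sel σ a (nx a)) (sel τ b (nx b))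
  eq : ∀ a ∈ A, ∀ b ∈ B, ¬ e (sel σ (nx a) a) (sel τ b (nx b))
  co : ∀ a ∈ A, ∀ b ∈ B, ∀ M : V → Prop, Q.Mod e M → M b → M (nx b) → M a ∨ M (nx a)

theorem no_vi [Finite V] (h : Cmp e f) (hT : Tr t e f W) (hp : Pr t m J L)
    (hTe : T = Tz e f m J L) (hνi : ∀ a b, ν a = ν b → a = b) {nx : V → V} {κ : V → ℕ}
    {σ τ : Bool} {A B : Finset V} (D : Vi t e f W T ν nx κ σ τ A B) (hA : 2 * t + 1 ≤ A.card)
    (hB : t + 2 ≤ B.card) : False := by
  classical
  have hN := hT.nest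
  have hF : Fam3 T := by
    rw [hTe]
    exact tz_fam h hT hp
  have hR : Nest (Wz T) := wz_nest hF
  set p : V → V := fun a => sel σ a (nx a) with hpdef
  set q : V → V := fun a => sel σ (nx a) a with hqdef
  set zb : V → V := fun b => sel τ b (nx b) with hzdef
  set wb : V → V := fun b => sel τ (nx b) b with hwdef
  -- elementary facts
  have hne : ∀ a ∈ A, a ≠ nx a := fun a ha => (D.sp a ha).ne hN
  have hFp : ∀ a ∈ A, T a (nx a) (p a) ∧ T a (nx a) (q a) := by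
    intro a ha
    have := hF.mem a (nx a) (hne a ha)
    cases σ with
    | true => exact this
    | false => exact ⟨this.2, this.1⟩
  have hKp : ∀ a ∈ A, W (κ a) a (p a) ∧ W (κ a) a (q a) := by
    intro a ha
    cases σ with
    | true => exact ⟨hN.self _ _, (D.sp a ha).1⟩
    | false => exact ⟨(D.sp a ha).1, hN.self _ _⟩
  have hpq : ∀ a ∈ A, ¬ W (κ a + 1) (p a) (q a) := by
    intro a ha
    cases σ with
    | true => exact (D.sp a ha).2
    | false => exact fun g => (D.sp a ha).2 (hN.symm g)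
  have hpz : ∀ a ∈ A, ∀ b ∈ B, ¬ W (κ a + 1) (p a) (zb b) := fun a ha b hb g =>
    D.zf a ha b hb (D.cl a ha _ _ (hFp a ha).1 g)
  have hAb : ∀ a ∈ A, ∀ z, W (κ a) a z → Ab t e f (W (κ a) z) := by
    intro a ha z hz
    rw [← hN.eq _ _ _ hz]
    exact Or.inr ⟨D.ce a ha, D.cf a ha, D.lb a ha⟩
  have hblk : ∀ a ∈ A, ∀ z, W (κ a) a z → ∀ w, W (κ a + 1) z w ↔ W (κ a) a w ∧
      SB e (W (κ a) a) z w := fun a ha z hz w => pri_sb hT (D.ce a ha) (D.cf a ha) hz
  have hblkf : ∀ a ∈ A, ∀ z, W (κ a) a z → W (κ a + 1) z = fun w => W (κ a) a w ∧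
      SB e (W (κ a) a) z w := by
    intro a ha z hz
    funext w
    exact propext (hblk a ha z hz w)
  -- the partner is in another block
  have stepA : ∀ a ∈ A, ∀ b ∈ B, ¬ W (κ a + 1) (zb b) (wb b) := by
    intro a ha b hb g
    have h1 : W (κ a + 1) (zb b) b ∧ W (κ a + 1) (zb b) (nx b) := by
      cases τ with
      | true => exact ⟨hN.self _ _, g⟩
      | false => exact ⟨g, hN.self _ _⟩
    have hm := hF.mem a (nx a) (hne a ha)
    rcases D.co a ha b hb _ (hT.mod (κ a + 1) (zb b)) h1.1 h1.2 with g' | g'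
    · exact D.zf a ha b hb (D.cl a ha _ _ hm.1 (hN.symm g'))
    · exact D.zf a ha b hb (D.cl a ha _ _ hm.2 (hN.symm g'))
  -- the nodes of the nested sequence
  have hlev : ∀ u v, u ≠ v → ∃ g, Wz T g u v ∧ ∀ z, T u v z ↔ Wz T g u z := by
    intro u v huv
    obtain ⟨g, hg⟩ : ∃ g, Sp (Wz T) g u v := hR.ex u v huv
    exact ⟨g, hg.1, wz_sp hF hg⟩
  -- two elements in the same block
  have stepB : ∀ a ∈ A, ∀ b ∈ B, ∀ c ∈ B, b ≠ c → W (κ a + 1) (zb b) (zb c) →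
      (∃ v, Te e m J (zb b) (zb c) v ∧ ¬ W (κ a + 1) (zb b) v) ∧ Gd e f m J L (zb b) (zb c) := by
    intro a ha b hb c hc hbc hbc'
    have hzne : zb b ≠ zb c := fun g => hbc (sel_inj hR hνi (D.nb b hb) (D.nb c hc) g)
    have h1 : ∃ v, T (zb b) (zb c) v ∧ ¬ W (κ a + 1) (zb b) v := by
      by_contra hn
      push Not at hn
      obtain ⟨g, g1, g2⟩ := hlev _ _ hzne
      refine hbc (nx_uniq2 hR hνi (D.nb b hb) (D.nb c hc) (σ := τ) (g := g) g1 ?_ ?_)
      · exact fun k => stepA a ha b hb (hn _ ((g2 _).2 k))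
      · intro k
        refine stepA a ha c hc (hN.trans (hN.symm hbc') (hn _ ((g2 _).2 (hR.trans g1 k))))
    obtain ⟨v, h1, h2⟩ := h1
    have hS : Se e f m J L (zb b) (zb c) := by
      rcases se_or h hT hp hzne with g | g
      · exact g
      · exfalso
        rw [hTe] at h1
        exact h2 (sub_child h hT hp.mt (hAb a ha _ (D.zk a ha b hb)) hbc' hzne.symm g.1.1
          (h1.2 g))
    rw [hTe] at h1
    exact ⟨⟨v, h1.1 hS, h2⟩, hS.1⟩
  -- such a block has few neighbours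
  have stepC : ∀ a ∈ A, ∀ b ∈ B, ∀ c ∈ B, b ≠ c → W (κ a + 1) (zb b) (zb c) →
      ∀ B' : Finset V, Ind e (W (κ a) a) B' →
      (∀ b' ∈ B', W (κ a) a b' ∧ ¬ W (κ a + 1) (zb b) b' ∧ e (zb b) b') → B'.card < t := by
    intro a ha b hb c hc hbc hbc' B' hI hB'
    obtain ⟨⟨v, h1, h2⟩, hg⟩ := stepB a ha b hb c hc hbc hbc'
    by_contra hcard
    have hzK := D.zk a ha b hb
    have hDs : Ds e m (W (κ a + 1) (zb b)) := by
      rw [hblkf a ha _ hzK]
      refine ds_many h (D.lb a ha) (hT.mod (κ a) a) (D.ce a ha) (D.cf a ha) hzK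
        ⟨p a, (hKp a ha).1, ?_⟩ (by have := hp.mt; omega) B' (by omega) hI ?_
      · intro g
        exact hpz a ha b hb (hN.symm ((hblk a ha _ hzK _).2 ⟨(hKp a ha).1, g⟩))
      · intro b' hb'
        obtain ⟨k1, k2, k3⟩ := hB' b' hb'
        refine ⟨k1, ?_⟩
        rw [← hblkf a ha _ hzK]
        exact ⟨k2, fun w hw => h.se _ _ (hT.mod (κ a + 1) (zb b) (zb b) w b' (hN.self _ _) hw k2
          k3)⟩
    exact h2 (form_sub h (gd_max h hg) (hT.mod (κ a + 1) (zb b)) hDs (hN.self _ _) hbc' h1)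
  -- the rows are in different blocks
  have hq1 : ∀ a ∈ A, ∀ b ∈ B, ∀ u, W (κ a + 1) (p a) u → u ≠ p a → ¬ T (p a) u (q a) := by
    intro a ha b hb u hu hne' hq
    rw [hTe] at hq
    rcases se_or h hT hp hne'.symm with g | g
    · have h1 := hq.1 g
      have h2 : Nn e m J (p a) u (zb b) := by
        refine ne_nn h (hT.mod (κ a + 1) (p a)) (hN.self _ _) hu ⟨hpz a ha b hb, ?_⟩
        intro w hw
        exact h.se _ _ (hT.mod (κ a + 1) (p a) (p a) w (zb b) (hN.self _ _) hw (hpz a ha b hb)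
          (D.ep a ha b hb))
      exact D.eq a ha b hb ((form_iff.1 h1).2 _ (pn_self m _) _ h2)
    · exact hpq a ha (sub_child h hT hp.mt (hAb a ha _ (hKp a ha).1) hu hne' g.1.1 (hq.2 g))
  obtain ⟨b0, hb0, b1, hb1, hb01⟩ := Finset.one_lt_card.1 (show 1 < B.card by omega)
  have stepD : ∀ a ∈ A, ∀ a' ∈ A, κ a = κ a' → W (κ a + 1) (p a) (p a') → a = a' := by
    intro a ha a' ha' hκ hw
    by_cases hpp : p a = p a'
    · exact sel_inj hR hνi (D.na a ha) (D.na a' ha') hpp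
    obtain ⟨g, g1, g2⟩ := hlev _ _ hpp
    refine nx_uniq2 hR hνi (D.na a ha) (D.na a' ha') (σ := σ) (g := g) g1 ?_ ?_
    · exact fun k => hq1 a ha b0 hb0 (p a') hw (Ne.symm hpp) ((g2 _).2 k)
    · intro k
      have hw' : W (κ a' + 1) (p a') (p a) := by
        rw [← hκ]
        exact hN.symm hw
      refine hq1 a' ha' b0 hb0 (p a) hw' hpp ?_
      rw [fam_comm hF]
      exact (g2 _).2 (hR.trans g1 k)
  -- the smallest node
  have hAne : A.Nonempty := by
    rw [← Finset.card_pos]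
    omega
  obtain ⟨a0, ha0, hmax⟩ := Finset.exists_max_image A κ hAne
  have hsame : ∀ a ∈ A, ∀ k, k ≤ κ a → W k a = W k (zb b0) := fun a ha k hk =>
    hN.eq _ _ _ (hN.mono hk (D.zk a ha b0 hb0))
  have hPI : ∀ A' : Finset V, A' ⊆ A → ∀ κ' : ℕ, (∀ a ∈ A', κ a = κ') → ∀ a ∈ A',
      (A'.image p).card = A'.card ∧ Ind e (W (κ a) a) (A'.image p) ∧
        ∀ u ∈ A'.image p, W (κ a) a u ∧ ∀ b ∈ B, ¬ W (κ a + 1) (zb b) u ∧ e (zb b) u := by
    intro A' hA' κ' hκ' a ha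
    have hWa : ∀ a' ∈ A', W (κ a') a' = W (κ a) a := by
      intro a' ha'
      rw [hsame a' (hA' ha') _ le_rfl, hsame a (hA' ha) _ le_rfl, hκ' a' ha', hκ' a ha]
    have hd : ∀ a1 ∈ A', ∀ a2 ∈ A', W (κ a + 1) (p a1) (p a2) → a1 = a2 := by
      intro a1 h1 a2 h2 hw
      refine stepD a1 (hA' h1) a2 (hA' h2) ((hκ' a1 h1).trans (hκ' a2 h2).symm) ?_
      rw [hκ' a1 h1, ← hκ' a ha]
      exact hw
    refine ⟨?_, ?_, ?_⟩
    · refine Finset.card_image_of_injOn ?_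
      intro a1 h1 a2 h2 hpp
      refine hd a1 h1 a2 h2 ?_
      rw [hpp]
      exact hN.self _ _
    · intro u hu u' hu' huu
      rw [Finset.mem_image] at hu hu'
      obtain ⟨a1, h1, rfl⟩ := hu
      obtain ⟨a2, h2, rfl⟩ := hu'
      intro g
      have k1 : W (κ a) a (p a1) := by
        rw [← hWa a1 h1]
        exact (hKp a1 (hA' h1)).1
      have k2 : W (κ a) a (p a2) := by
        rw [← hWa a2 h2]
        exact (hKp a2 (hA' h2)).1
      exact huu (by rw [hd a1 h1 a2 h2 ((hblk a (hA' ha) _ k1 _).2 ⟨k2, g⟩)])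
    · intro u hu
      rw [Finset.mem_image] at hu
      obtain ⟨a1, h1, rfl⟩ := hu
      refine ⟨?_, fun b hb => ⟨fun g => ?_, h.se _ _ (D.ep a1 (hA' h1) b hb)⟩⟩
      · rw [← hWa a1 h1]
        exact (hKp a1 (hA' h1)).1
      · refine hpz a1 (hA' h1) b hb (hN.symm ?_)
        rw [hκ' a1 h1, ← hκ' a ha]
        exact g
  have hoff : (A.filter fun a => κ a < κ a0).card < t + 1 := by
    by_contra hcard
    have hne1 : (A.filter fun a => κ a < κ a0).Nonempty := by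
      rw [← Finset.card_pos]
      omega
    have hin : ∀ a ∈ A, κ a < κ a0 → ∀ b ∈ B, W (κ a + 1) (zb b0) (zb b) := by
      intro a ha hlt b hb
      have h1 := D.zk a0 ha0 b hb
      rw [hsame a0 ha0 _ le_rfl] at h1
      exact hN.mono (by omega) h1
    have huniq : ∀ a ∈ A, κ a < κ a0 → ∀ a' ∈ A, κ a' < κ a0 → κ a' ≤ κ a → κ a' = κ a := by
      intro a ha hlt a' ha' hlt' hle
      by_contra hne2
      have hlt2 : κ a' < κ a := lt_of_le_of_ne hle hne2
      obtain ⟨⟨v, h1, h2⟩, hg⟩ := stepB a' ha' b0 hb0 b1 hb1 hb01 (hin a' ha' hlt' b1 hb1)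
      have hzK := D.zk a ha b0 hb0
      obtain ⟨d, hd, hNd⟩ := nb_ex h (D.ce a ha) (D.cf a ha) hzK ⟨p a, (hKp a ha).1, fun g =>
        hpz a ha b0 hb0 (hN.symm ((hblk a ha _ hzK _).2 ⟨(hKp a ha).1, g⟩))⟩
      rw [← hblkf a ha _ hzK] at hNd
      have h3 := te_sub h (hT.mod (κ a) a) hzK (D.zk a ha b1 hb1) (ne_nn h
        (hT.mod (κ a + 1) (zb b0)) (hN.self _ _) (hin a ha hlt b1 hb1) hNd) hd h1
      rw [hsame a ha _ le_rfl] at h3
      exact h2 (hN.mono (by omega) h3)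
    obtain ⟨a1, ha1⟩ := hne1
    rw [Finset.mem_filter] at ha1
    obtain ⟨c1, c2, c3⟩ := hPI (A.filter fun a => κ a < κ a0) (Finset.filter_subset _ _) (κ a1)
      (by
        intro a ha
        rw [Finset.mem_filter] at ha
        rcases le_total (κ a) (κ a1) with g | g
        · exact huniq a1 ha1.1 ha1.2 a ha.1 ha.2 g
        · exact (huniq a ha.1 ha.2 a1 ha1.1 ha1.2 g).symm) a1 (Finset.mem_filter.2 ha1)
    have h1 := stepC a1 ha1.1 b0 hb0 b1 hb1 hb01 (hin a1 ha1.1 ha1.2 b1 hb1) _ c2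
      (fun u hu => ⟨(c3 u hu).1, ((c3 u hu).2 b0 hb0).1, ((c3 u hu).2 b0 hb0).2⟩)
    omega
  have hsplit := Finset.card_filter_add_card_filter_not (s := A) (fun a => κ a < κ a0)
  have heq : ∀ a ∈ A.filter (fun a => ¬ κ a < κ a0), κ a = κ a0 := by
    intro a ha
    rw [Finset.mem_filter] at ha
    have := hmax a ha.1
    omega
  obtain ⟨c1, c2, c3⟩ := hPI (A.filter fun a => ¬ κ a < κ a0) (Finset.filter_subset _ _) (κ a0)
    heq a0 (Finset.mem_filter.2 ⟨ha0, lt_irrefl _⟩)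
  -- the columns are in different blocks
  have hcolI : ∀ b ∈ B, ∀ c ∈ B, b ≠ c → ¬ W (κ a0 + 1) (zb b) (zb c) := by
    intro b hb c hc hbc hw
    have h1 := stepC a0 ha0 b hb c hc hbc hw _ c2
      (fun u hu => ⟨(c3 u hu).1, ((c3 u hu).2 b hb).1, ((c3 u hu).2 b hb).2⟩)
    omega
  have hBc : (B.image zb).card = B.card := by
    refine Finset.card_image_of_injOn ?_
    intro b hb c hc hbc
    exact sel_inj hR hνi (D.nb b hb) (D.nb c hc) hbc
  refine ktt_K (D.lb a0 ha0) _ (B.image zb) (fun u hu => (c3 u hu).1) ?_ c2 ?_ ?_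
    (by omega) (by omega)
  · intro u hu
    rw [Finset.mem_image] at hu
    obtain ⟨b, hb, rfl⟩ := hu
    exact D.zk a0 ha0 b hb
  · intro u hu u' hu' huu
    rw [Finset.mem_image] at hu hu'
    obtain ⟨b, hb, rfl⟩ := hu
    obtain ⟨c, hc, rfl⟩ := hu'
    intro g
    refine hcolI b hb c hc (fun g' => huu (by rw [g'])) ?_
    exact (hblk a0 ha0 _ (D.zk a0 ha0 b hb) _).2 ⟨D.zk a0 ha0 c hc, g⟩
  · intro u hu u' hu'
    rw [Finset.mem_image] at hu'
    obtain ⟨b, hb, rfl⟩ := hu'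
    obtain ⟨k1, k2⟩ := c3 u hu
    obtain ⟨k3, k4⟩ := k2 b hb
    refine ⟨h.se _ _ k4, fun g => k3 ?_⟩
    exact (hblk a0 ha0 _ (D.zk a0 ha0 b hb) _).2 ⟨k1, sb_symm g⟩

end Z

end P1346e8
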